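import Pool.Agent.H95.Nev.Dens

/-!
# Positive directed currents and their trace measures
-/

open MeasureTheory Set Metric Filter Topology
open scoped ContDiff Manifold

namespace Pool.Agent.H95.Nev
open Pool.Agent.H45.Nev

variable {E : Type*} [NormedAddCommGroup E] [NormedSpace ℂ E]
  {M : Type*} [TopologicalSpace M] [ChartedSpace E M]

lemma form_ext {θ η : Form11 E M} (h : ∀ x v w, ev θ.1 x v w = ev η.1 x v w) : θ = η := by
  apply Subtype.ext
  funext x
  apply LinearMap.ext
  intro v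
  apply LinearMap.ext
  intro w
  exact h x v w

/-- sesquilinear fields from functions without dependent types -/
noncomputable def mkS (f : M → E → E → ℂ) (h1 : ∀ x v v' w, f x (v + v') w = f x v w + f x v' w)
    (h2 : ∀ x (c : ℂ) v w, f x (c • v) w = c * f x v w)
    (h3 : ∀ x v w w', f x v (w + w') = f x v w + f x v w')
    (h4 : ∀ x (c : ℂ) v w, f x v (c • w) = (starRingEnd ℂ) c * f x v w) : SesqField E M :=
  fun x => LinearMap.mk₂'ₛₗ (RingHom.id ℂ) (starRingEnd ℂ) (fun v w => f x v w)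
    (h1 x) (h2 x) (h3 x) (h4 x)

lemma mkS_ev {f : M → E → E → ℂ} {h1 h2 h3 h4} (x : M) (v w : E) :
    ev (mkS f h1 h2 h3 h4) x v w = f x v w := rfl

lemma form_map_sub (T : Form11 E M →ₗ[ℂ] ℂ) (θ η : Form11 E M) : T (θ - η) = T θ - T η := by
  have h : θ - η = θ + (-1 : ℂ) • η := by
    apply form_ext
    intro x v w
    show ev θ.1 x v w - ev η.1 x v w = ev θ.1 x v w + (-1) * ev η.1 x v w
    ring
  rw [h, map_add, map_smul, smul_eq_mul]
  ring

/-- conjugate transpose of a field of sesquilinear forms -/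
noncomputable def starS (θ : SesqField E M) : SesqField E M := fun x =>
  LinearMap.mk₂'ₛₗ (RingHom.id ℂ) (starRingEnd ℂ) (fun v w => (starRingEnd ℂ) (θ x w v))
    (fun v v' w => by simp) (fun c v w => by simp) (fun v w w' => by simp)
    (fun c v w => by simp)

lemma starS_ev (θ : SesqField E M) (x : M) (v w : E) :
    ev (starS θ) x v w = (starRingEnd ℂ) (ev θ x w v) := rfl

/-- conjugate transpose -/
noncomputable def starF (θ : Form11 E M) : Form11 E M :=
  ⟨starS θ.1, fun e he v w => by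
    have h : inChart e (starS θ.1) v w = fun y => (starRingEnd ℂ) (inChart e θ.1 w v y) := rfl
    rw [h]
    exact conj_contDiff.comp_contDiffOn (θ.2 e he w v)⟩

lemma starF_ev (θ : Form11 E M) (x : M) (v w : E) :
    ev (starF θ).1 x v w = (starRingEnd ℂ) (ev θ.1 x w v) := rfl

section
variable [IsManifold 𝓘(ℂ, E) ω M]

/-- product with a smooth function -/
noncomputable def mulF (f : M → ℝ) (hf : IsSmooth E f) (θ : Form11 E M) : Form11 E M :=
  ⟨fun x => (f x : ℂ) • θ.1 x, fun e he v w => by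
    have h : inChart e (fun x => (f x : ℂ) • θ.1 x) v w =
      fun y => (((f ∘ e.symm) y : ℝ) : ℂ) * inChart e θ.1 v w y := rfl
    rw [h]
    exact (Complex.ofRealCLM.contDiff.comp_contDiffOn (hf.chart he)).mul (θ.2 e he v w)⟩

lemma mulF_ev (f : M → ℝ) (hf : IsSmooth E f) (θ : Form11 E M) (x : M) (v w : E) :
    ev (mulF f hf θ).1 x v w = f x * ev θ.1 x v w := rfl

end

section real

variable {κ : Form11 E M} (hκ : IsHermitianMetric κ)

/-- Hermitian forms -/
def IsHerm (A : Form11 E M) : Prop := ∀ x v w, ev A.1 x v w = (starRingEnd ℂ) (ev A.1 x w v)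

lemma IsHerm.im {A : Form11 E M} (hA : IsHerm A) (x : M) (v : E) : (ev A.1 x v v).im = 0 := by
  have h := hA x v v
  have h2 := congrArg Complex.im h
  rw [Complex.conj_im] at h2
  linarith

/-- Hermitian part -/
noncomputable def hp (θ : Form11 E M) : Form11 E M := (1 / 2 : ℂ) • (θ + starF θ)

/-- anti-Hermitian part, divided by `i` -/
noncomputable def ap (θ : Form11 E M) : Form11 E M := (-(Complex.I / 2)) • (θ - starF θ)

lemma hp_ev (θ : Form11 E M) (x : M) (v w : E) :
    ev (hp θ).1 x v w = (1 / 2 : ℂ) * (ev θ.1 x v w + (starRingEnd ℂ) (ev θ.1 x w v)) := rfl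

lemma ap_ev (θ : Form11 E M) (x : M) (v w : E) :
    ev (ap θ).1 x v w = (-(Complex.I / 2)) * (ev θ.1 x v w - (starRingEnd ℂ) (ev θ.1 x w v)) := rfl

lemma hp_herm (θ : Form11 E M) : IsHerm (hp θ) := by
  intro x v w
  rw [hp_ev, hp_ev]
  simp only [map_mul, map_add, Complex.conj_conj, map_div₀, map_one, Complex.conj_ofNat]
  ring

lemma ap_herm (θ : Form11 E M) : IsHerm (ap θ) := by
  intro x v w
  rw [ap_ev, ap_ev]
  simp only [map_mul, map_sub, map_neg, Complex.conj_conj, map_div₀, Complex.conj_I,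
    Complex.conj_ofNat]
  ring

lemma hp_add_ap (θ : Form11 E M) : θ = hp θ + Complex.I • ap θ := by
  apply form_ext
  intro x v w
  have : ev (hp θ + Complex.I • ap θ).1 x v w =
    ev (hp θ).1 x v w + Complex.I * ev (ap θ).1 x v w := rfl
  rw [this, hp_ev, ap_ev]
  have h2 := Complex.I_mul_I
  linear_combination ((1 / 2 : ℂ) * (ev θ.1 x v w - (starRingEnd ℂ) (ev θ.1 x w v))) * h2

lemma star_eq (θ : Form11 E M) : starF θ = hp θ - Complex.I • ap θ := by
  apply form_ext
  intro x v w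
  have : ev (hp θ - Complex.I • ap θ).1 x v w =
    ev (hp θ).1 x v w - Complex.I * ev (ap θ).1 x v w := rfl
  rw [this, hp_ev, ap_ev, starF_ev]
  have h2 := Complex.I_mul_I
  linear_combination (-(1 / 2 : ℂ) * (ev θ.1 x v w - (starRingEnd ℂ) (ev θ.1 x w v))) * h2

lemma hp_diag (θ : Form11 E M) (x : M) (v : E) : (ev (hp θ).1 x v v).re = (ev θ.1 x v v).re := by
  rw [hp_ev, Complex.add_conj]
  simp

lemma ap_diag (θ : Form11 E M) (x : M) (v : E) : (ev (ap θ).1 x v v).re = (ev θ.1 x v v).im := by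
  rw [ap_ev, Complex.sub_conj]
  have : -(Complex.I / 2) * (2 * ((ev θ.1 x v v).im : ℂ) * Complex.I) =
      ((ev θ.1 x v v).im : ℂ) := by
    have h2 := Complex.I_mul_I
    linear_combination (-((ev θ.1 x v v).im : ℂ)) * h2
  push_cast
  rw [this, Complex.ofReal_re]

variable {T : Form11 E M →ₗ[ℂ] ℂ} (hT : IsPositive T)

section
variable [IsManifold 𝓘(ℂ, E) ω M]

include hκ hT in
/-- bound for Hermitian forms -/
lemma herm_bound [MeasurableSpace M] {μ : Measure M} (htr : IsTraceMeasure T κ μ)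
    {A : Form11 E M} (hA : IsHerm A) {f : M → ℝ} (hf : IsSmooth E f)
    (hb : ∀ x v, |(ev A.1 x v v).re| ≤ f x * (ev κ.1 x v v).re) :
    (T A).im = 0 ∧ |(T A).re| ≤ ∫ x, f x ∂μ := by
  have hTf : T (mulF f hf κ) = (∫ x, f x ∂μ : ℝ) := htr f hf _ (fun x v w => rfl)
  have hp1 : IsNonneg (mulF f hf κ + A) := by
    intro x v
    have h1 : (mulF f hf κ + A).1 x v v = (f x : ℂ) * ev κ.1 x v v + ev A.1 x v v := rfl
    rw [h1]
    have h2 := hb x v
    rw [abs_le] at h2
    constructor
    · rw [Complex.add_re, Complex.re_ofReal_mul]; linarith [h2.1]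
    · rw [Complex.add_im, Complex.im_ofReal_mul, metric_im hκ, hA.im]; simp
  have hp2 : IsNonneg (mulF f hf κ - A) := by
    intro x v
    have h1 : (mulF f hf κ - A).1 x v v = (f x : ℂ) * ev κ.1 x v v - ev A.1 x v v := rfl
    rw [h1]
    have h2 := hb x v
    rw [abs_le] at h2
    constructor
    · rw [Complex.sub_re, Complex.re_ofReal_mul]; linarith [h2.2]
    · rw [Complex.sub_im, Complex.im_ofReal_mul, metric_im hκ, hA.im]; simp
  have h1 := hT _ hp1
  have h2 := hT _ hp2
  rw [map_add, hTf] at h1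
  rw [form_map_sub, hTf] at h2
  rw [Complex.add_re, Complex.add_im, Complex.ofReal_re, Complex.ofReal_im] at h1
  rw [Complex.sub_re, Complex.sub_im, Complex.ofReal_re, Complex.ofReal_im] at h2
  refine ⟨by linarith [h1.2], ?_⟩
  rw [abs_le]
  constructor <;> linarith [h1.1, h2.1]

include hκ hT in
/-- bound for general forms -/
lemma gen_bound [MeasurableSpace M] {μ : Measure M} (htr : IsTraceMeasure T κ μ)
    {θ : Form11 E M} {f : M → ℝ} (hf : IsSmooth E f)
    (hb : ∀ x v, ‖ev θ.1 x v v‖ ≤ f x * (ev κ.1 x v v).re) :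
    ‖T θ‖ ≤ 2 * ∫ x, f x ∂μ := by
  have h1 := herm_bound hκ hT htr (hp_herm θ) hf (fun x v => by
    rw [hp_diag]; exact (Complex.abs_re_le_norm _).trans (hb x v))
  have h2 := herm_bound hκ hT htr (ap_herm θ) hf (fun x v => by
    rw [ap_diag]; exact (Complex.abs_im_le_norm _).trans (hb x v))
  have h3 : T θ = T (hp θ) + Complex.I * T (ap θ) := by
    conv_lhs => rw [hp_add_ap θ]
    rw [map_add, map_smul, smul_eq_mul]
  have e1 : T (hp θ) = ((T (hp θ)).re : ℂ) := by
    apply Complex.ext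
    · simp
    · simp [h1.1]
  have e2 : T (ap θ) = ((T (ap θ)).re : ℂ) := by
    apply Complex.ext
    · simp
    · simp [h2.1]
  rw [h3]
  calc ‖T (hp θ) + Complex.I * T (ap θ)‖ ≤ ‖T (hp θ)‖ + ‖Complex.I * T (ap θ)‖ := norm_add_le _ _
    _ = |(T (hp θ)).re| + |(T (ap θ)).re| := by
        rw [norm_mul, Complex.norm_I, one_mul]
        conv_lhs => rw [e1, e2]
        rw [Complex.norm_real, Complex.norm_real, Real.norm_eq_abs, Real.norm_eq_abs]
    _ ≤ 2 * ∫ x, f x ∂μ := by linarith [h1.2, h2.2]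

variable [FiniteDimensional ℂ E] [CompactSpace M] [T2Space M]

omit [IsManifold 𝓘(ℂ, E) ω M] [CompactSpace M] [T2Space M] [FiniteDimensional ℂ E] in
lemma isSmooth_const (c : ℝ) : IsSmooth E (fun _ : M => c) := contMDiff_const

include hκ in
lemma form_bdd_diag (θ : Form11 E M) : ∃ C : ℝ, 0 ≤ C ∧ ∀ (x : M) (v : E),
    ‖ev θ.1 x v v‖ ≤ C * (ev κ.1 x v v).re := by
  obtain ⟨C, hC0, hC⟩ := form_bdd κ hκ θ
  refine ⟨C, hC0, fun x v => ?_⟩
  have h1 := hC x v v
  have hp := metric_nonneg hκ (x := x) v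
  have h2 : ‖ev θ.1 x v v‖ ^ 2 ≤ (C * (ev κ.1 x v v).re) ^ 2 := by
    refine h1.trans (le_of_eq ?_)
    show C ^ 2 * (ev κ.1 x v v).re * (ev κ.1 x v v).re = _
    ring
  exact (pow_le_pow_iff_left₀ (norm_nonneg _) (by positivity) (by norm_num)).mp h2

include hκ hT in
lemma T_star [MeasurableSpace M] {μ : Measure M} (htr : IsTraceMeasure T κ μ) (θ : Form11 E M) :
    T (starF θ) = (starRingEnd ℂ) (T θ) := by
  obtain ⟨C, hC0, hC⟩ := form_bdd_diag hκ θ
  have h1 := herm_bound hκ hT htr (hp_herm θ) (isSmooth_const C) (fun x v => by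
    rw [hp_diag]; exact (Complex.abs_re_le_norm _).trans (hC x v))
  have h2 := herm_bound hκ hT htr (ap_herm θ) (isSmooth_const C) (fun x v => by
    rw [ap_diag]; exact (Complex.abs_im_le_norm _).trans (hC x v))
  have h3 : T θ = T (hp θ) + Complex.I * T (ap θ) := by
    conv_lhs => rw [hp_add_ap θ]
    rw [map_add, map_smul, smul_eq_mul]
  rw [star_eq, form_map_sub, map_smul, smul_eq_mul, h3, map_add, map_mul, Complex.conj_I,
    Complex.conj_eq_iff_im.mpr h1.1, Complex.conj_eq_iff_im.mpr h2.1]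
  ring

end

end real

/-! ### Forms vanishing on the leaves -/

section proj
variable [IsManifold 𝓘(ℂ, E) ω M] [FiniteDimensional ℂ E] [CompactSpace M] [T2Space M]
  {F : SingFoliation E M} {κ : Form11 E M} (hκ : IsHermitianMetric κ)

/-- the form `θ(P v, w)` with `P` the orthogonal projection to the leaf direction -/
noncomputable def prS (F : SingFoliation E M) (κ θ : SesqField E M) : SesqField E M :=
  mkS (fun x v w => ev κ x v (gn F x) / ev κ x (gn F x) (gn F x) * ev θ x (gn F x) w)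
    (fun x v v' w => by rw [ev_add_left]; ring)
    (fun x c v w => by rw [ev_smul_left]; ring)
    (fun x v w w' => by rw [ev_add_right]; ring)
    (fun x c v w => by rw [ev_smul_right]; ring)

omit [IsManifold 𝓘(ℂ, E) ω M] [FiniteDimensional ℂ E] [CompactSpace M] [T2Space M] in
lemma prS_ev (F : SingFoliation E M) (κ θ : SesqField E M) (x : M) (v w : E) :
    ev (prS F κ θ) x v w = ev κ x v (gn F x) / ev κ x (gn F x) (gn F x) * ev θ x (gn F x) w := rfl

include hκ in
omit [CompactSpace M] in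
lemma prS_mem (θ : Form11 E M) {K : Set M} (hK : IsCompact K) (hKs : K ⊆ F.singᶜ)
    (hθK : ∀ x ∉ K, ∀ v w, ev θ.1 x v w = 0) : prS F κ.1 θ.1 ∈ Form11 E M := by
  apply mem_Form11_of
  intro x
  by_cases hx : x ∈ K
  · obtain ⟨e, v, hxe, h⟩ := exists_flow (hKs hx)
    refine ⟨e, h.1, hxe, fun a b => ?_⟩
    have hy := e.map_source hxe
    have h1 : inChart e (prS F κ.1 θ.1) a b =ᶠ[𝓝 (e x)] fun z =>
        inChart e κ.1 a v z * (inChart e κ.1 v v z)⁻¹ * inChart e θ.1 v b z := by
      filter_upwards [e.open_target.mem_nhds hy] with z hz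
      rw [inChart_ev, prS_ev]
      obtain ⟨c, hc, hg⟩ := h.gen (e.map_target hz)
      rw [e.right_inv hz] at hg
      rw [hg, map_smul, ev_smul_right, ev_smul_right, ev_smul_left, ev_smul_left,
        ← inChart_ev, ← inChart_ev, ← inChart_ev]
      have hne := metric_inChart_ne hκ h.1 hz h.2.1
      have hc' : (starRingEnd ℂ) c ≠ 0 := (map_ne_zero _).mpr hc
      field_simp
    refine ContDiffAt.congr_of_eventuallyEq ?_ h1
    exact ((form_contDiffAt κ h.1 hy a v).mul ((form_contDiffAt κ h.1 hy v v).inv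
      (metric_inChart_ne hκ h.1 hy h.2.1))).mul (form_contDiffAt θ h.1 hy v b)
  · refine ⟨chartAt E x, chartAt_mem_max x, mem_chart_source E x, fun a b => ?_⟩
    have hopen : IsOpen ((chartAt E x).target ∩ (chartAt E x).symm ⁻¹' Kᶜ) :=
      (chartAt E x).isOpen_inter_preimage_symm hK.isClosed.isOpen_compl
    have hmem : chartAt E x x ∈ (chartAt E x).target ∩ (chartAt E x).symm ⁻¹' Kᶜ := by
      refine ⟨(chartAt E x).map_source (mem_chart_source E x), ?_⟩
      rw [mem_preimage, (chartAt E x).left_inv (mem_chart_source E x)]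
      exact hx
    have h1 : inChart (chartAt E x) (prS F κ.1 θ.1) a b =ᶠ[𝓝 (chartAt E x x)] fun _ => 0 := by
      filter_upwards [hopen.mem_nhds hmem] with z hz
      rw [inChart_ev, prS_ev, hθK _ hz.2, mul_zero]
    exact contDiffAt_const.congr_of_eventuallyEq h1

include hκ in
/-- forms vanishing on the leaves are annihilated by directed currents -/
lemma T_vanish {T : Form11 E M →ₗ[ℂ] ℂ} (hT : IsPositive T) (hd : F.IsDirected T)
    [MeasurableSpace M] {μ : Measure M} (htr : IsTraceMeasure T κ μ)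
    (θ : Form11 E M) {K : Set M} (hK : IsCompact K) (hKs : K ⊆ F.singᶜ)
    (hθK : ∀ x ∉ K, ∀ v w, ev θ.1 x v w = 0)
    (hg : ∀ x ∉ F.sing, ev θ.1 x (gn F x) (gn F x) = 0) : T θ = 0 := by
  set θ2 : Form11 E M := ⟨prS F κ.1 θ.1, prS_mem hκ θ hK hKs hθK⟩ with hθ2
  have h1 : T (θ - θ2) = 0 := by
    apply hd
    intro x hx v w hv
    obtain ⟨c, hc⟩ := tangent_iff hx hv
    show ev θ.1 x v w - ev κ.1 x v (gn F x) / ev κ.1 x (gn F x) (gn F x) * ev θ.1 x (gn F x) w = 0
    rw [hc, ev_smul_left, ev_smul_left]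
    have hne := metric_ne hκ (x := x) (gen_ne_zero hx)
    field_simp
    ring
  have h2 : T (starF θ2) = 0 := by
    apply hd
    intro x hx v w hv
    obtain ⟨c, hc⟩ := tangent_iff hx hv
    show (starRingEnd ℂ) (ev κ.1 x w (gn F x) / ev κ.1 x (gn F x) (gn F x) *
      ev θ.1 x (gn F x) v) = 0
    rw [hc, ev_smul_right, hg x hx]
    simp
  have h3 : T θ2 = 0 := by
    rw [T_star hκ hT htr] at h2
    exact (map_eq_zero _).mp h2
  rw [form_map_sub, h3, sub_zero] at h1
  exact h1

include hκ in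
/-- the formula for forms supported off the singular set -/
lemma T_cut {T : Form11 E M →ₗ[ℂ] ℂ} (hT : IsPositive T) (hd : F.IsDirected T)
    [MeasurableSpace M] {μ : Measure M} (htr : IsTraceMeasure T κ μ)
    (θ : Form11 E M) {χ : M → ℝ} (hχ : IsSmooth E χ) {K : Set M} (hK : IsCompact K)
    (hKs : K ⊆ F.singᶜ) (hχK : ∀ x ∉ K, χ x = 0) :
    T (mulF χ hχ θ) = ((∫ x, χ x * (dens F κ θ x).re ∂μ : ℝ) : ℂ) +
      Complex.I * ((∫ x, χ x * (dens F κ θ x).im ∂μ : ℝ) : ℂ) := by
  obtain ⟨hr, hi⟩ := dens_smooth F κ hκ θ χ hχ K hK hKs hχK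
  set η : Form11 E M := mulF χ hχ θ - (mulF _ hr κ + Complex.I • mulF _ hi κ) with hη
  have hη0 : ∀ x v w, ev η.1 x v w = χ x * ev θ.1 x v w -
      (((χ x * (dens F κ θ x).re : ℝ) : ℂ) * ev κ.1 x v w +
        Complex.I * (((χ x * (dens F κ θ x).im : ℝ) : ℂ) * ev κ.1 x v w)) := fun x v w => rfl
  have hT0 : T η = 0 := by
    apply T_vanish hκ hT hd htr η hK hKs
    · intro x hx v w
      rw [hη0, hχK x hx]
      simp
    · intro x hx
      rw [hη0]
      have h1 : ev θ.1 x (gn F x) (gn F x) = dens F κ θ x * ev κ.1 x (gn F x) (gn F x) := by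
        rw [dens_def hx, div_mul_cancel₀ _ (metric_ne hκ (gen_ne_zero hx))]
      rw [h1]
      have h2 := Complex.re_add_im (dens F κ θ x)
      conv_lhs => rw [← h2]
      simp only [Complex.ofReal_mul, Complex.add_re, Complex.ofReal_re, Complex.mul_re,
        Complex.I_re, Complex.ofReal_im, Complex.I_im, Complex.add_im, Complex.mul_im]
      simp only [mul_zero, mul_one, sub_zero, add_zero, zero_add]
      ring
  have h1 : T (mulF _ hr κ) = ((∫ x, χ x * (dens F κ θ x).re ∂μ : ℝ) : ℂ) :=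
    htr _ hr _ (fun x v w => rfl)
  have h2 : T (mulF _ hi κ) = ((∫ x, χ x * (dens F κ θ x).im ∂μ : ℝ) : ℂ) :=
    htr _ hi _ (fun x v w => rfl)
  rw [hη, form_map_sub, map_add, map_smul, smul_eq_mul, h1, h2] at hT0
  exact sub_eq_zero.mp hT0

/-- smooth cutoffs with large mass -/
lemma exists_cut (F : SingFoliation E M) [MeasurableSpace M] [BorelSpace M] (μ : Measure M)
    [IsFiniteMeasure μ] (hμ : μ F.sing = 0) {ε : ℝ} (hε : 0 < ε) :
    ∃ χ : M → ℝ, IsSmooth E χ ∧ (∀ x, 0 ≤ χ x ∧ χ x ≤ 1) ∧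
      (∃ K, IsCompact K ∧ K ⊆ F.singᶜ ∧ ∀ x ∉ K, χ x = 0) ∧ ∫ x, (1 - χ x) ∂μ ≤ ε := by
  have hreal := isManifold_real (E := E) (M := M)
  have : FiniteDimensional ℝ E := FiniteDimensional.complexToReal E
  have : ProperSpace E := FiniteDimensional.proper ℂ E
  have : SecondCountableTopology M := ChartedSpace.secondCountable_of_sigmaCompact E M
  have : TopologicalSpace.MetrizableSpace M := TopologicalSpace.metrizableSpace_of_t3_secondCountable M
  obtain ⟨K, hKs, hK, hKμ⟩ : ∃ K ⊆ F.singᶜ, IsClosed K ∧ μ F.singᶜ ≤ μ K + ENNReal.ofReal ε := by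
    by_cases h0 : μ F.singᶜ = 0
    · exact ⟨∅, empty_subset _, isClosed_empty, by rw [h0]; exact bot_le⟩
    · have hlt : μ F.singᶜ - ENNReal.ofReal ε < μ F.singᶜ :=
        ENNReal.sub_lt_self (measure_ne_top _ _) h0 (ENNReal.ofReal_pos.mpr hε).ne'
      obtain ⟨K, hKs, hK, hKμ⟩ := (isClosed_sing F).isOpen_compl.exists_lt_isClosed hlt
      exact ⟨K, hKs, hK, tsub_le_iff_right.mp hKμ.le⟩
  obtain ⟨V, hVo, hKV, hVs⟩ := normal_exists_closure_subset hK (isClosed_sing F).isOpen_compl hKs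
  have hdisj : Disjoint Vᶜ K := by
    rw [Set.disjoint_left]
    intro x hx hxK
    exact hx (hKV hxK)
  obtain ⟨f, hf0, hf1, hf⟩ := exists_contMDiffMap_zero_one_of_isClosed (n := ⊤) 𝓘(ℝ, E)
    hVo.isClosed_compl hK hdisj
  refine ⟨f, f.contMDiff, fun x => ⟨(hf x).1, (hf x).2⟩,
    ⟨closure V, isClosed_closure.isCompact, hVs, fun x hx => hf0 ?_⟩, ?_⟩
  · intro hxV
    exact hx (subset_closure hxV)
  · have hcont : Continuous f := f.contMDiff.continuous
    have hle : ∀ x, 1 - f x ≤ Kᶜ.indicator (fun _ => (1 : ℝ)) x := by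
      intro x
      by_cases hx : x ∈ K
      · rw [indicator_of_notMem (by simpa using hx), hf1 hx]
        simp
      · rw [indicator_of_mem (by simpa using hx)]
        linarith [(hf x).1]
    have h1 : ∫ x, (1 - f x) ∂μ ≤ ∫ x, Kᶜ.indicator (fun _ => (1 : ℝ)) x ∂μ := by
      apply integral_mono_of_nonneg
      · exact ae_of_all _ fun x => by simp only [Pi.zero_apply]; linarith [(hf x).2]
      · exact (integrable_const _).indicator hK.isOpen_compl.measurableSet
      · exact ae_of_all _ hle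
    refine h1.trans ?_
    rw [integral_indicator hK.isOpen_compl.measurableSet, setIntegral_const, smul_eq_mul, mul_one]
    rw [Measure.real]
    apply ENNReal.toReal_le_of_le_ofReal hε.le
    have h2 : μ univ = μ F.singᶜ := by
      rw [← measure_add_measure_compl (isClosed_sing F).measurableSet, hμ, zero_add]
    have h3 : μ K + μ Kᶜ = μ univ := measure_add_measure_compl hK.measurableSet
    rw [h2] at h3
    have h4 : μ K + μ Kᶜ ≤ μ K + ENNReal.ofReal ε := by rw [h3]; exact hKμ
    exact (ENNReal.add_le_add_iff_left (measure_ne_top μ K)).mp h4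

end proj

/-- K. Representation of directed positive currents by their trace measure. -/
theorem current_formula [IsManifold 𝓘(ℂ, E) ω M] [FiniteDimensional ℂ E] [CompactSpace M]
    [T2Space M] (F : SingFoliation E M) (κ : Form11 E M) (hκ : IsHermitianMetric κ)
    [MeasurableSpace M] [BorelSpace M] (μ : Measure M) [IsFiniteMeasure μ] (hμ : μ F.sing = 0)
    (T : Form11 E M →ₗ[ℂ] ℂ) (hT : IsPositive T) (hd : F.IsDirected T)
    (htr : IsTraceMeasure T κ μ) (θ : Form11 E M) :
    T θ = ∫ x, dens F κ θ x ∂μ := by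
  obtain ⟨hm, C₁, hC₁⟩ := dens_meas F κ hκ θ
  obtain ⟨C₂, hC₂0, hC₂⟩ := form_bdd_diag hκ θ
  have hint : Integrable (dens F κ θ) μ :=
    Integrable.of_bound hm.aestronglyMeasurable C₁ (ae_of_all _ hC₁)
  have key : ∀ ε > 0, ‖T θ - ∫ x, dens F κ θ x ∂μ‖ ≤ (2 * C₂ + max C₁ 0) * ε := by
    intro ε hε
    obtain ⟨χ, hχ, hχ01, ⟨K, hK, hKs, hχK⟩, hχε⟩ := exists_cut F μ hμ hε
    have hχc : Continuous χ := hχ.continuous
    have hχi : Integrable χ μ := Integrable.of_bound hχc.aestronglyMeasurable 1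
      (ae_of_all _ fun x => by rw [Real.norm_of_nonneg (hχ01 x).1]; exact (hχ01 x).2)
    have h1χ : IsSmooth E (fun x => 1 - χ x) := ContMDiff.sub contMDiff_const hχ
    have hsplit : θ = mulF χ hχ θ + mulF (fun x => 1 - χ x) h1χ θ := by
      apply form_ext
      intro x v w
      have : ev (mulF χ hχ θ + mulF (fun x => 1 - χ x) h1χ θ).1 x v w =
        (χ x : ℂ) * ev θ.1 x v w + (((1 - χ x : ℝ)) : ℂ) * ev θ.1 x v w := rfl
      rw [this]
      push_cast
      ring
    have hb : ‖T (mulF (fun x => 1 - χ x) h1χ θ)‖ ≤ 2 * (C₂ * ε) := by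
      have h2 : IsSmooth E (fun x => C₂ * (1 - χ x)) := ContMDiff.mul contMDiff_const h1χ
      refine (gen_bound hκ hT htr (f := fun x => C₂ * (1 - χ x)) h2 ?_).trans ?_
      · intro x v
        rw [mulF_ev, norm_mul, Complex.norm_real, Real.norm_of_nonneg (by linarith [(hχ01 x).2])]
        have := mul_le_mul_of_nonneg_left (hC₂ x v) (by linarith [(hχ01 x).2] : 0 ≤ 1 - χ x)
        linarith
      · rw [integral_const_mul]
        have := mul_le_mul_of_nonneg_left hχε hC₂0
        linarith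
    have hc := T_cut hκ hT hd htr θ hχ hK hKs hχK
    have hTe : T θ = T (mulF χ hχ θ) + T (mulF (fun x => 1 - χ x) h1χ θ) := by
      conv_lhs => rw [hsplit]
      rw [map_add]
    have hci : Integrable (fun x => (χ x : ℂ) * dens F κ θ x) μ := by
      apply Integrable.of_bound ((Complex.continuous_ofReal.comp hχc).measurable.mul
        hm).aestronglyMeasurable C₁
      refine ae_of_all _ fun x => ?_
      show ‖(χ x : ℂ) * dens F κ θ x‖ ≤ C₁
      rw [norm_mul, Complex.norm_real, Real.norm_of_nonneg (hχ01 x).1]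
      calc χ x * ‖dens F κ θ x‖ ≤ 1 * ‖dens F κ θ x‖ :=
            mul_le_mul_of_nonneg_right (hχ01 x).2 (norm_nonneg _)
        _ ≤ C₁ := by rw [one_mul]; exact hC₁ x
    have hcut : T (mulF χ hχ θ) = ∫ x, (χ x : ℂ) * dens F κ θ x ∂μ := by
      rw [hc]
      have hre : ∫ x, χ x * (dens F κ θ x).re ∂μ = (∫ x, (χ x : ℂ) * dens F κ θ x ∂μ).re := by
        have := integral_re hci
        simp only [RCLike.re_eq_complex_re] at this
        rw [← this]
        congr 1
        funext x
        rw [Complex.re_ofReal_mul]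
      have him : ∫ x, χ x * (dens F κ θ x).im ∂μ = (∫ x, (χ x : ℂ) * dens F κ θ x ∂μ).im := by
        have := integral_im hci
        simp only [RCLike.im_eq_complex_im] at this
        rw [← this]
        congr 1
        funext x
        rw [Complex.im_ofReal_mul]
      rw [hre, him, mul_comm Complex.I]
      exact Complex.re_add_im _
    have hdiff : ‖∫ x, (χ x : ℂ) * dens F κ θ x ∂μ - ∫ x, dens F κ θ x ∂μ‖ ≤ max C₁ 0 * ε := by
      rw [← integral_sub hci hint]
      calc ‖∫ x, ((χ x : ℂ) * dens F κ θ x - dens F κ θ x) ∂μ‖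
          ≤ ∫ x, max C₁ 0 * (1 - χ x) ∂μ := by
            apply norm_integral_le_of_norm_le
            · exact ((integrable_const _).sub hχi).const_mul _
            · refine ae_of_all _ fun x => ?_
              have h4 : (χ x : ℂ) * dens F κ θ x - dens F κ θ x =
                  -((((1 - χ x : ℝ)) : ℂ) * dens F κ θ x) := by
                push_cast; ring
              rw [h4, norm_neg, norm_mul, Complex.norm_real,
                Real.norm_of_nonneg (by linarith [(hχ01 x).2]), mul_comm]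
              exact mul_le_mul_of_nonneg_right ((hC₁ x).trans (le_max_left _ _))
                (by linarith [(hχ01 x).2])
        _ = max C₁ 0 * ∫ x, (1 - χ x) ∂μ := integral_const_mul _ _
        _ ≤ max C₁ 0 * ε := mul_le_mul_of_nonneg_left hχε (le_max_right _ _)
    calc ‖T θ - ∫ x, dens F κ θ x ∂μ‖ = ‖(∫ x, (χ x : ℂ) * dens F κ θ x ∂μ -
          ∫ x, dens F κ θ x ∂μ) + T (mulF (fun x => 1 - χ x) h1χ θ)‖ := by
            rw [hTe, hcut]; congr 1; ring
      _ ≤ max C₁ 0 * ε + 2 * (C₂ * ε) := (norm_add_le _ _).trans (add_le_add hdiff hb)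
      _ = (2 * C₂ + max C₁ 0) * ε := by ring
  have hfin : ‖T θ - ∫ x, dens F κ θ x ∂μ‖ ≤ 0 := by
    have hlim : Tendsto (fun ε : ℝ => (2 * C₂ + max C₁ 0) * ε) (𝓝[>] 0) (𝓝 0) := by
      have : Tendsto (fun ε : ℝ => (2 * C₂ + max C₁ 0) * ε) (𝓝 0) (𝓝 ((2 * C₂ + max C₁ 0) * 0)) :=
        tendsto_id.const_mul _
      rw [mul_zero] at this
      exact this.mono_left nhdsWithin_le_nhds
    exact ge_of_tendsto hlim (by
      filter_upwards [self_mem_nhdsWithin] with ε hε
      exact key ε hε)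
  exact sub_eq_zero.mp (norm_le_zero_iff.mp hfin)

end Pool.Agent.H95.Nev
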