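import Pool.Agent.H95.Nev.Form

/-!
# The leafwise density of a form
-/

open MeasureTheory Set Metric Filter Topology
open scoped ContDiff Manifold

namespace Pool.Agent.H95.Nev
open Pool.Agent.H45.Nev

variable {E : Type*} [NormedAddCommGroup E] [NormedSpace ℂ E]
  {M : Type*} [TopologicalSpace M] [ChartedSpace E M]

lemma Di_ne_zero {e : OpenPartialHomeomorph M E}
    (he : e ∈ IsManifold.maximalAtlas 𝓘(ℂ, E) ω M) {y : E} (hy : y ∈ e.target) {v : E}
    (hv : v ≠ 0) : Di e y v ≠ 0 := by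
  intro h
  have h1 := D_Di he hy v
  rw [h, map_zero] at h1
  exact hv h1.symm

lemma D_ne_zero {e : OpenPartialHomeomorph M E}
    (he : e ∈ IsManifold.maximalAtlas 𝓘(ℂ, E) ω M) {x : M} (hx : x ∈ e.source) {v : E}
    (hv : v ≠ 0) : D e x v ≠ 0 := by
  intro h
  have h1 := Di_D he hx v
  rw [h, map_zero] at h1
  exact hv h1.symm

/-- the generators, without dependent types -/
noncomputable def gn (F : SingFoliation E M) (x : M) : E := F.gen x

/-- the generators, without dependent types -/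
noncomputable def Xn (F : SingFoliation E M) (i : F.ι) (x : M) : E := F.X i x

/-- a flow box chart -/
def IsFlow (F : SingFoliation E M) (e : OpenPartialHomeomorph M E) (v : E) : Prop :=
  e ∈ IsManifold.maximalAtlas 𝓘(ℂ, E) ω M ∧ v ≠ 0 ∧
    ∀ i, ∀ y ∈ e.source ∩ F.U i, ∃ c : ℂ, c ≠ 0 ∧ D e y (Xn F i y) = c • v

variable {F : SingFoliation E M}

lemma exists_flow {x : M} (hx : x ∉ F.sing) : ∃ e v, x ∈ e.source ∧ IsFlow F e v := by
  obtain ⟨i, hi⟩ := F.cover x
  have hne : F.X i x ≠ 0 := fun h => hx ⟨i, hi, h⟩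
  obtain ⟨e, he, hxe, v, hv, h⟩ := F.flowBox x ⟨i, hi, hne⟩
  exact ⟨e, v, hxe, he, hv, h⟩

variable {e : OpenPartialHomeomorph M E} {v : E}

lemma IsFlow.notMem (h : IsFlow F e v) {y : M} (hy : y ∈ e.source) : y ∉ F.sing := by
  rintro ⟨i, hi, h0⟩
  obtain ⟨c, hc, hcv⟩ := h.2.2 i y ⟨hy, hi⟩
  have h1 : Xn F i y = 0 := h0
  rw [h1, map_zero] at hcv
  exact (smul_ne_zero hc h.2.1) hcv.symm

lemma IsFlow.gen (h : IsFlow F e v) {y : M} (hy : y ∈ e.source) :
    ∃ c : ℂ, c ≠ 0 ∧ gn F y = Di e (e y) (c • v) := by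
  obtain ⟨c, hc, hcv⟩ := h.2.2 _ y ⟨hy, (F.cover y).choose_spec⟩
  refine ⟨c, hc, ?_⟩
  rw [← hcv, Di_D h.1 hy]
  rfl

lemma IsFlow.tangent (h : IsFlow F e v) {y : M} (hy : y ∈ e.source) {u : E}
    (hu : F.Tangent y u) : ∃ c : ℂ, u = Di e (e y) (c • v) := by
  obtain ⟨i, hi, c, hc⟩ := hu
  obtain ⟨c', hc', hcv⟩ := h.2.2 i y ⟨hy, hi⟩
  refine ⟨c * c', ?_⟩
  have h1 : u = c • Xn F i y := hc
  have h2 : Xn F i y = Di e (e y) (c' • v) := by
    rw [← hcv, Di_D h.1 hy]
  rw [h1, h2, mul_smul, map_smul (Di e (e y)) c (c' • v)]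

lemma isClosed_sing (F : SingFoliation E M) : IsClosed F.sing := by
  rw [← isOpen_compl_iff, isOpen_iff_mem_nhds]
  intro x hx
  obtain ⟨e, v, hxe, h⟩ := exists_flow hx
  filter_upwards [e.open_source.mem_nhds hxe] with y hy
  exact h.notMem hy

lemma gen_ne_zero {x : M} (hx : x ∉ F.sing) : gn F x ≠ 0 :=
  fun h => hx ⟨(F.cover x).choose, (F.cover x).choose_spec, h⟩

lemma gen_tangent (F : SingFoliation E M) (x : M) (c : ℂ) : F.Tangent x (c • F.gen x) :=
  ⟨(F.cover x).choose, (F.cover x).choose_spec, c, rfl⟩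

lemma tangent_iff {x : M} (hx : x ∉ F.sing) {u : E} (hu : F.Tangent x u) :
    ∃ c : ℂ, u = c • gn F x := by
  obtain ⟨e, v, hxe, h⟩ := exists_flow hx
  obtain ⟨c, hc⟩ := h.tangent hxe hu
  obtain ⟨c', hc', hg⟩ := h.gen hxe
  refine ⟨c * c'⁻¹, ?_⟩
  rw [hc, hg, map_smul, map_smul, smul_smul, mul_assoc, inv_mul_cancel₀ hc', mul_one]

lemma dens_def {κ θ : Form11 E M} {x : M} (hx : x ∉ F.sing) :
    dens F κ θ x = ev θ.1 x (gn F x) (gn F x) / ev κ.1 x (gn F x) (gn F x) := by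
  unfold dens
  rw [if_neg hx]
  rfl

lemma IsFlow.dens (h : IsFlow F e v) {κ θ : Form11 E M} {y : M} (hy : y ∈ e.source) :
    dens F κ θ y = inChart e θ.1 v v (e y) / inChart e κ.1 v v (e y) := by
  rw [dens_def (h.notMem hy)]
  obtain ⟨c, hc, hg⟩ := h.gen hy
  have h1 : ∀ η : Form11 E M, ev η.1 y (gn F y) (gn F y) =
      (c * (starRingEnd ℂ) c) * inChart e η.1 v v (e y) := by
    intro η
    rw [hg, map_smul, ev_smul_left, ev_smul_right, inChart_ev, e.left_inv hy]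
    ring
  rw [h1, h1]
  apply mul_div_mul_left
  exact mul_ne_zero hc ((map_ne_zero _).mpr hc)

section metric
variable {κ : Form11 E M} (hκ : IsHermitianMetric κ)
include hκ

lemma metric_pos {x : M} {v : E} (hv : v ≠ 0) : 0 < (ev κ.1 x v v).re := (hκ x v hv).1

lemma metric_im {x : M} (v : E) : (ev κ.1 x v v).im = 0 := by
  by_cases hv : v = 0
  · rw [hv, ev_zero_left]; rfl
  · exact (hκ x v hv).2

lemma metric_eq {x : M} (v : E) : ev κ.1 x v v = ((ev κ.1 x v v).re : ℂ) := by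
  apply Complex.ext
  · simp
  · simp [metric_im hκ]

lemma metric_ne {x : M} {v : E} (hv : v ≠ 0) : ev κ.1 x v v ≠ 0 := by
  intro h
  have := metric_pos hκ (x := x) hv
  rw [h] at this
  simp at this

lemma metric_nonneg {x : M} (v : E) : 0 ≤ (ev κ.1 x v v).re := by
  by_cases hv : v = 0
  · rw [hv, ev_zero_left]; rfl
  · exact (metric_pos hκ hv).le

lemma metric_inChart_ne {e : OpenPartialHomeomorph M E}
    (he : e ∈ IsManifold.maximalAtlas 𝓘(ℂ, E) ω M) {y : E} (hy : y ∈ e.target) {v : E}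
    (hv : v ≠ 0) : inChart e κ.1 v v y ≠ 0 := by
  rw [inChart_ev]
  exact metric_ne hκ (Di_ne_zero he hy hv)

end metric

/-- functions on `M` that are smooth off the singular set -/
def SmoothReg (F : SingFoliation E M) (q : M → ℂ) : Prop :=
  ∀ x ∉ F.sing, ∃ e ∈ IsManifold.maximalAtlas 𝓘(ℂ, E) ω M, x ∈ e.source ∧
    ∀ᶠ y in 𝓝 (e x), ContDiffAt ℝ ∞ (q ∘ e.symm) y

lemma dens_smoothReg {κ : Form11 E M} (hκ : IsHermitianMetric κ) (θ : Form11 E M) :
    SmoothReg F (dens F κ θ) := by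
  intro x hx
  obtain ⟨e, v, hxe, h⟩ := exists_flow hx
  refine ⟨e, h.1, hxe, ?_⟩
  filter_upwards [e.open_target.mem_nhds (e.map_source hxe)] with y hy
  have h1 : dens F κ θ ∘ e.symm =ᶠ[𝓝 y] fun z => inChart e θ.1 v v z / inChart e κ.1 v v z := by
    filter_upwards [e.open_target.mem_nhds hy] with z hz
    rw [Function.comp_apply, h.dens (e.map_target hz), e.right_inv hz]
  refine ContDiffAt.congr_of_eventuallyEq ?_ h1
  simp_rw [div_eq_mul_inv]
  exact (form_contDiffAt θ h.1 hy v v).mul ((form_contDiffAt κ h.1 hy v v).inv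
    (metric_inChart_ne hκ h.1 hy h.2.1))

section
variable [IsManifold 𝓘(ℂ, E) ω M]

lemma smooth_cut {q : M → ℂ} (hq : SmoothReg F q) (L : ℂ →L[ℝ] ℝ) {χ : M → ℝ}
    (hχ : IsSmooth E χ) {K : Set M} (hK : IsClosed K) (hKs : K ⊆ F.singᶜ)
    (hχK : ∀ x ∉ K, χ x = 0) : IsSmooth E (fun x => χ x * L (q x)) := by
  apply isSmooth_of_chart
  intro x
  by_cases hx : x ∈ K
  · obtain ⟨e, he, hxe, hev⟩ := hq x (hKs hx)
    refine ⟨e, he, hxe, ?_⟩
    filter_upwards [hev, e.open_target.mem_nhds (e.map_source hxe)] with y hy hy2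
    have h1 : ContDiffAt ℝ ∞ (χ ∘ e.symm) y := hχ.contDiffAt_symm he hy2
    exact h1.mul (L.contDiff.contDiffAt.comp y hy)
  · refine ⟨chartAt E x, chartAt_mem_max x, mem_chart_source E x, ?_⟩
    have hopen : IsOpen ((chartAt E x).target ∩ (chartAt E x).symm ⁻¹' Kᶜ) :=
      (chartAt E x).isOpen_inter_preimage_symm hK.isOpen_compl
    have hmem : chartAt E x x ∈ (chartAt E x).target ∩ (chartAt E x).symm ⁻¹' Kᶜ := by
      refine ⟨(chartAt E x).map_source (mem_chart_source E x), ?_⟩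
      rw [mem_preimage, (chartAt E x).left_inv (mem_chart_source E x)]
      exact hx
    filter_upwards [hopen.mem_nhds hmem] with y hy
    have h1 : (fun x => χ x * L (q x)) ∘ (chartAt E x).symm =ᶠ[𝓝 y] fun _ => 0 := by
      filter_upwards [hopen.mem_nhds hy] with z hz
      rw [Function.comp_apply, hχK _ hz.2, zero_mul]
    exact contDiffAt_const.congr_of_eventuallyEq h1

/-- J2. The leafwise density is smooth off the singular set. -/
theorem dens_smooth [FiniteDimensional ℂ E] [CompactSpace M] [T2Space M]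
    (F : SingFoliation E M) (κ : Form11 E M) (hκ : IsHermitianMetric κ)
    (θ : Form11 E M) (χ : M → ℝ) (hχ : IsSmooth E χ) (K : Set M) (hK : IsCompact K)
    (hKs : K ⊆ F.singᶜ) (hχK : ∀ x ∉ K, χ x = 0) :
    IsSmooth E (fun x => χ x * (dens F κ θ x).re) ∧
      IsSmooth E (fun x => χ x * (dens F κ θ x).im) :=
  ⟨smooth_cut (dens_smoothReg hκ θ) Complex.reCLM hχ hK.isClosed hKs hχK,
    smooth_cut (dens_smoothReg hκ θ) Complex.imCLM hχ hK.isClosed hKs hχK⟩

end

/-! ### Domination by the metric -/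

section bdd
variable [IsManifold 𝓘(ℂ, E) ω M] [FiniteDimensional ℂ E]

omit [IsManifold 𝓘(ℂ, E) ω M] in
lemma joint_cont {e : OpenPartialHomeomorph M E}
    (he : e ∈ IsManifold.maximalAtlas 𝓘(ℂ, E) ω M) (θ : Form11 E M) :
    ContinuousOn (fun p : E × E × E => inChart e θ.1 p.2.1 p.2.2 p.1) (e.target ×ˢ univ) := by
  have h1 : (fun p : E × E × E => inChart e θ.1 p.2.1 p.2.2 p.1) = fun p => ∑ j, ∑ k,
      ((Module.finBasis ℂ E).coord j p.2.1 *
      (starRingEnd ℂ) ((Module.finBasis ℂ E).coord k p.2.2)) *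
        inChart e θ.1 (Module.finBasis ℂ E j) (Module.finBasis ℂ E k) p.1 := by
    funext p
    exact inChart_expand e θ.1 _ _ _
  rw [h1]
  have hc : ∀ j, Continuous (fun v : E => (Module.finBasis ℂ E).coord j v) := fun j =>
    LinearMap.continuous_of_finiteDimensional _
  apply continuousOn_finsetSum
  intro j _
  apply continuousOn_finsetSum
  intro k _
  apply ContinuousOn.mul
  · apply Continuous.continuousOn
    apply Continuous.mul
    · exact (hc j).comp (continuous_fst.comp continuous_snd)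
    · exact Complex.continuous_conj.comp ((hc k).comp (continuous_snd.comp continuous_snd))
  · have h2 := (θ.2 e he (Module.finBasis ℂ E j) (Module.finBasis ℂ E k)).continuousOn
    exact h2.comp continuousOn_fst (fun p hp => hp.1)

lemma local_bdd {κ : Form11 E M} (hκ : IsHermitianMetric κ) (θ : Form11 E M) (x : M) :
    ∃ N ∈ 𝓝 x, ∃ C : ℝ, ∀ y ∈ N, ∀ v w : E,
      ‖ev θ.1 y v w‖ ^ 2 ≤ C * (ev κ.1 y v v).re * (ev κ.1 y w w).re := by
  have : ProperSpace E := FiniteDimensional.proper ℂ E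
  set e := chartAt E x with hedef
  have he : e ∈ IsManifold.maximalAtlas 𝓘(ℂ, E) ω M := chartAt_mem_max x
  have hx : x ∈ e.source := mem_chart_source E x
  obtain ⟨r, hr, hrb⟩ := Metric.nhds_basis_closedBall.mem_iff.mp
    (e.open_target.mem_nhds (e.map_source hx))
  refine ⟨e.source ∩ e ⁻¹' (ball (e x) r), ?_, ?_⟩
  · exact (e.isOpen_inter_preimage isOpen_ball).mem_nhds ⟨hx, mem_ball_self hr⟩
  have hcpt : IsCompact (closedBall (e x) r ×ˢ (sphere (0 : E) 1 ×ˢ sphere (0 : E) 1)) :=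
    (isCompact_closedBall _ _).prod ((isCompact_sphere _ _).prod (isCompact_sphere _ _))
  have hcont : ContinuousOn (fun p : E × E × E => ‖inChart e θ.1 p.2.1 p.2.2 p.1‖ ^ 2 /
      ((inChart e κ.1 p.2.1 p.2.1 p.1).re * (inChart e κ.1 p.2.2 p.2.2 p.1).re))
      (closedBall (e x) r ×ˢ (sphere (0 : E) 1 ×ˢ sphere (0 : E) 1)) := by
    have hsub : closedBall (e x) r ×ˢ (sphere (0 : E) 1 ×ˢ sphere (0 : E) 1) ⊆
        e.target ×ˢ (univ : Set (E × E)) := fun p hp => ⟨hrb hp.1, mem_univ _⟩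
    have hk : ∀ g : E × E × E → E × E × E, Continuous g → (∀ p, (g p).1 = p.1) →
        ContinuousOn (fun p => (inChart e κ.1 (g p).2.1 (g p).2.2 (g p).1).re)
          (closedBall (e x) r ×ˢ (sphere (0 : E) 1 ×ˢ sphere (0 : E) 1)) := by
      intro g hg h1
      apply Complex.continuous_re.comp_continuousOn
      apply (joint_cont he κ).comp hg.continuousOn
      intro p hp
      exact ⟨by rw [h1]; exact hrb hp.1, mem_univ _⟩
    apply ContinuousOn.div
    · exact (((joint_cont he θ).mono hsub).norm).pow 2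
    · exact (hk (fun p => (p.1, p.2.1, p.2.1)) (by fun_prop) (fun _ => rfl)).mul
        (hk (fun p => (p.1, p.2.2, p.2.2)) (by fun_prop) (fun _ => rfl))
    · rintro ⟨y, v, w⟩ ⟨hy, hv, hw⟩
      have hv0 : v ≠ 0 := ne_zero_of_mem_unit_sphere ⟨v, hv⟩
      have hw0 : w ≠ 0 := ne_zero_of_mem_unit_sphere ⟨w, hw⟩
      apply mul_ne_zero
      · exact (metric_pos hκ (Di_ne_zero he (hrb hy) hv0)).ne'
      · exact (metric_pos hκ (Di_ne_zero he (hrb hy) hw0)).ne'
  obtain ⟨C, hC⟩ := hcpt.exists_bound_of_continuousOn hcont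
  refine ⟨C, ?_⟩
  rintro y ⟨hy, hyb⟩ v w
  by_cases hv : v = 0
  · rw [hv]; simp [ev_zero_left]
  by_cases hw : w = 0
  · rw [hw]; simp [ev_zero_right]
  have hv' := D_ne_zero he hy hv
  have hw' := D_ne_zero he hy hw
  set V := D e y v with hV
  set W := D e y w with hW
  have hnV : (0 : ℝ) < ‖V‖ := norm_pos_iff.mpr hv'
  have hnW : (0 : ℝ) < ‖W‖ := norm_pos_iff.mpr hw'
  set V1 : E := ((‖V‖⁻¹ : ℝ) : ℂ) • V with hV1
  set W1 : E := ((‖W‖⁻¹ : ℝ) : ℂ) • W with hW1
  have hV1s : V1 ∈ sphere (0 : E) 1 := by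
    rw [mem_sphere_zero_iff_norm, hV1, norm_smul]
    simp [hnV.ne']
  have hW1s : W1 ∈ sphere (0 : E) 1 := by
    rw [mem_sphere_zero_iff_norm, hW1, norm_smul]
    simp [hnW.ne']
  have hVe : V = ((‖V‖ : ℝ) : ℂ) • V1 := by
    rw [hV1, smul_smul, ← Complex.ofReal_mul, mul_inv_cancel₀ hnV.ne', Complex.ofReal_one, one_smul]
  have hWe : W = ((‖W‖ : ℝ) : ℂ) • W1 := by
    rw [hW1, smul_smul, ← Complex.ofReal_mul, mul_inv_cancel₀ hnW.ne', Complex.ofReal_one, one_smul]
  have hb := hC (e y, V1, W1) ⟨ball_subset_closedBall hyb, hV1s, hW1s⟩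
  rw [Real.norm_eq_abs] at hb
  have hb' := (le_abs_self _).trans hb
  have hp1 : 0 < (inChart e κ.1 V1 V1 (e y)).re :=
    metric_pos hκ (Di_ne_zero he (e.map_source hy) (ne_zero_of_mem_unit_sphere ⟨V1, hV1s⟩))
  have hp2 : 0 < (inChart e κ.1 W1 W1 (e y)).re :=
    metric_pos hκ (Di_ne_zero he (e.map_source hy) (ne_zero_of_mem_unit_sphere ⟨W1, hW1s⟩))
  rw [div_le_iff₀ (mul_pos hp1 hp2)] at hb'
  have eθ : ev θ.1 y v w = (‖V‖ : ℂ) * (‖W‖ : ℂ) * inChart e θ.1 V1 W1 (e y) := by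
    rw [ev_eq_inChart he hy, ← hV, ← hW]
    conv_lhs => rw [hVe, hWe]
    rw [inChart_smul_left, inChart_smul_right, Complex.conj_ofReal]
    ring
  have eκ1 : ev κ.1 y v v = ((‖V‖ * ‖V‖ : ℝ) : ℂ) * inChart e κ.1 V1 V1 (e y) := by
    rw [ev_eq_inChart he hy, ← hV]
    conv_lhs => rw [hVe]
    rw [inChart_smul_left, inChart_smul_right, Complex.conj_ofReal]
    push_cast
    ring
  have eκ2 : ev κ.1 y w w = ((‖W‖ * ‖W‖ : ℝ) : ℂ) * inChart e κ.1 W1 W1 (e y) := by
    rw [ev_eq_inChart he hy, ← hW]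
    conv_lhs => rw [hWe]
    rw [inChart_smul_left, inChart_smul_right, Complex.conj_ofReal]
    push_cast
    ring
  rw [eθ, eκ1, eκ2, Complex.re_ofReal_mul, Complex.re_ofReal_mul, norm_mul, norm_mul,
    Complex.norm_real, Complex.norm_real, norm_norm, norm_norm]
  have h0 : 0 ≤ (‖V‖ * ‖W‖) ^ 2 := by positivity
  have h1 := mul_le_mul_of_nonneg_left hb' h0
  simp only at h1
  nlinarith [h1]

/-- J1. Forms are dominated by the metric. -/
theorem form_bdd [CompactSpace M] [T2Space M]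
    (κ : Form11 E M) (hκ : IsHermitianMetric κ) (θ : Form11 E M) :
    ∃ C : ℝ, 0 ≤ C ∧ ∀ (x : M) (v w : TangentSpace 𝓘(ℂ, E) x),
      ‖θ.1 x v w‖ ^ 2 ≤ C ^ 2 * (κ.1 x v v).re * (κ.1 x w w).re := by
  have h : ∃ C : ℝ, ∀ y ∈ (univ : Set M), ∀ v w : E,
      ‖ev θ.1 y v w‖ ^ 2 ≤ C * (ev κ.1 y v v).re * (ev κ.1 y w w).re := by
    apply isCompact_univ.induction_on (p := fun s => ∃ C : ℝ, ∀ y ∈ s, ∀ v w : E,
      ‖ev θ.1 y v w‖ ^ 2 ≤ C * (ev κ.1 y v v).re * (ev κ.1 y w w).re)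
    · exact ⟨0, fun y hy => absurd hy (Set.notMem_empty y)⟩
    · rintro s t hst ⟨C, hC⟩
      exact ⟨C, fun y hy => hC y (hst hy)⟩
    · rintro s t ⟨C, hC⟩ ⟨C', hC'⟩
      refine ⟨max C C', fun y hy v w => ?_⟩
      have h0 : 0 ≤ (ev κ.1 y v v).re * (ev κ.1 y w w).re :=
        mul_nonneg (metric_nonneg hκ v) (metric_nonneg hκ w)
      rcases hy with hy | hy
      · refine (hC y hy v w).trans ?_
        rw [mul_assoc, mul_assoc]
        exact mul_le_mul_of_nonneg_right (le_max_left _ _) h0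
      · refine (hC' y hy v w).trans ?_
        rw [mul_assoc, mul_assoc]
        exact mul_le_mul_of_nonneg_right (le_max_right _ _) h0
    · intro x _
      obtain ⟨N, hN, C, hC⟩ := local_bdd hκ θ x
      exact ⟨N, mem_nhdsWithin_of_mem_nhds hN, C, hC⟩
  obtain ⟨C, hC⟩ := h
  refine ⟨√(max C 0), Real.sqrt_nonneg _, fun x v w => ?_⟩
  rw [Real.sq_sqrt (le_max_right _ _)]
  refine (hC x (mem_univ x) v w).trans ?_
  have h0 : 0 ≤ (ev κ.1 x v v).re * (ev κ.1 x w w).re :=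
    mul_nonneg (metric_nonneg hκ (v : E)) (metric_nonneg hκ (w : E))
  have h1 := mul_le_mul_of_nonneg_right (le_max_left C 0) h0
  rw [← mul_assoc, ← mul_assoc] at h1
  exact h1

end bdd

/-- J3. The leafwise density is measurable and bounded. -/
theorem dens_meas [IsManifold 𝓘(ℂ, E) ω M] [FiniteDimensional ℂ E] [CompactSpace M] [T2Space M]
    (F : SingFoliation E M) (κ : Form11 E M) (hκ : IsHermitianMetric κ)
    [MeasurableSpace M] [BorelSpace M] (θ : Form11 E M) :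
    Measurable (dens F κ θ) ∧ ∃ C, ∀ x, ‖dens F κ θ x‖ ≤ C := by
  classical
  constructor
  · have hc : ContinuousOn (dens F κ θ) F.singᶜ := by
      intro x hx
      obtain ⟨e, he, hxe, hev⟩ := dens_smoothReg (F := F) hκ θ x hx
      have h1 : ContinuousAt (dens F κ θ ∘ e.symm) (e x) := hev.self_of_nhds.continuousAt
      have h2 : ContinuousAt ((dens F κ θ ∘ e.symm) ∘ e) x := h1.comp (e.continuousAt hxe)
      refine (h2.congr ?_).continuousWithinAt
      filter_upwards [e.open_source.mem_nhds hxe] with y hy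
      simp [e.left_inv hy]
    have hm := hc.measurable_piecewise (continuousOn_const (c := (0 : ℂ)) (s := F.singᶜᶜ))
      (isClosed_sing F).isOpen_compl.measurableSet
    convert hm using 1
    funext x
    by_cases hx : x ∈ F.singᶜ
    · rw [piecewise_eq_of_mem _ _ _ hx]
    · rw [piecewise_eq_of_notMem _ _ _ hx]
      unfold dens
      rw [if_pos (not_not.mp hx)]
  · obtain ⟨C, hC0, hC⟩ := form_bdd κ hκ θ
    refine ⟨C, fun x => ?_⟩
    by_cases hx : x ∈ F.sing
    · unfold dens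
      rw [if_pos hx, norm_zero]
      exact hC0
    · rw [dens_def hx]
      have h1 := hC x (F.gen x) (F.gen x)
      have hp := metric_pos hκ (x := x) (gen_ne_zero hx)
      rw [metric_eq hκ (gn F x), norm_div, Complex.norm_real, Real.norm_of_nonneg hp.le,
        div_le_iff₀ hp]
      have h2 : ‖ev θ.1 x (gn F x) (gn F x)‖ ^ 2 ≤
          (C * (ev κ.1 x (gn F x) (gn F x)).re) ^ 2 := by
        refine h1.trans (le_of_eq ?_)
        show _ = _
        rw [mul_pow]
        have : (κ.1 x (F.gen x) (F.gen x)).re = (ev κ.1 x (gn F x) (gn F x)).re := rfl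
        rw [this]
        ring
      exact (pow_le_pow_iff_left₀ (norm_nonneg _) (by positivity) (by norm_num)).mp h2

end Pool.Agent.H95.Nev
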