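import Pool.Agent.H59.Nev.Kato

/-!
# Weyl's lemma for positive measures on the unit disc, tested on a countable family
-/

open MeasureTheory Set Metric Filter Topology
open scoped ContDiff Convolution

namespace Pool.Agent.H95.Nev
open Pool.Agent.H45.Nev (lap)
open Pool.Agent.H59.Nev (two_le lap_eq contDiff_fderiv_apply lap_continuous fderiv_apply_hcs
  lap_reflect lap_hcs)

/-- convolution of a measure with a function -/
noncomputable def pot (κ : Measure ℂ) (g : ℂ → ℝ) (z : ℂ) : ℝ := ∫ t, g (z - t) ∂κ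

section pot

variable (κ : Measure ℂ) [IsFiniteMeasure κ]

lemma pot_integrable {E : Type*} [NormedAddCommGroup E] {g : ℂ → E} (hg : Continuous g)
    (hc : HasCompactSupport g) (z : ℂ) : Integrable (fun t => g (z - t)) κ := by
  obtain ⟨C, hC⟩ := hc.exists_bound_of_continuous hg
  exact Integrable.of_bound
    (hg.comp_stronglyMeasurable (by fun_prop : Continuous fun t : ℂ => z - t).stronglyMeasurable).aestronglyMeasurable C
    (ae_of_all _ fun t => hC _)

omit [IsFiniteMeasure κ] in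
lemma pot_eq_conv (g : ℂ → ℝ) :
    pot κ g = ((fun _ => (1 : ℝ)) ⋆[ContinuousLinearMap.lsmul ℝ ℝ, κ] g) := by
  funext z
  simp [pot, convolution_def]

lemma pot_contDiff {g : ℂ → ℝ} (hg : ContDiff ℝ ∞ g) (hc : HasCompactSupport g) :
    ContDiff ℝ ∞ (pot κ g) := by
  rw [pot_eq_conv]
  exact hc.contDiff_convolution_right _ (integrable_const _).locallyIntegrable hg

lemma pot_hasFDerivAt {g : ℂ → ℝ} (hg : ContDiff ℝ ∞ g) (hc : HasCompactSupport g) (z : ℂ) :
    HasFDerivAt (pot κ g) (∫ t, fderiv ℝ g (z - t) ∂κ) z := by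
  have hc' : HasCompactSupport (fderiv ℝ g) := hc.fderiv (𝕜 := ℝ)
  have hg' : Continuous (fderiv ℝ g) := hg.continuous_fderiv (by simp)
  obtain ⟨C, hC⟩ := hc'.exists_bound_of_continuous hg'
  show HasFDerivAt (fun z => ∫ t, g (z - t) ∂κ) (∫ t, fderiv ℝ g (z - t) ∂κ) z
  apply hasFDerivAt_integral_of_dominated_of_fderiv_le (bound := fun _ => C) (s := univ)
    (F := fun z t => g (z - t)) (F' := fun z t => fderiv ℝ g (z - t)) univ_mem
  · exact Eventually.of_forall fun x => (pot_integrable κ hg.continuous hc x).aestronglyMeasurable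
  · exact pot_integrable κ hg.continuous hc z
  · exact (pot_integrable κ hg' hc' z).aestronglyMeasurable
  · exact ae_of_all _ fun t x _ => hC _
  · exact integrable_const _
  · refine ae_of_all _ fun t x _ => ?_
    have h1 : HasFDerivAt g (fderiv ℝ g (x - t)) (x - t) :=
      ((hg.differentiable (by simp)) (x - t)).hasFDerivAt
    have h2 : HasFDerivAt (fun x => g (x - t))
        ((fderiv ℝ g (x - t)).comp (ContinuousLinearMap.id ℝ ℂ)) x :=
      h1.comp x ((hasFDerivAt_id x).sub_const t)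
    simpa using h2

lemma pot_fderiv_apply {g : ℂ → ℝ} (hg : ContDiff ℝ ∞ g) (hc : HasCompactSupport g) (e z : ℂ) :
    fderiv ℝ (pot κ g) z e = pot κ (fun y => fderiv ℝ g y e) z := by
  rw [(pot_hasFDerivAt κ hg hc z).fderiv]
  exact ContinuousLinearMap.integral_apply
    (pot_integrable κ (hg.continuous_fderiv (by simp)) (hc.fderiv (𝕜 := ℝ)) z) e

lemma lap_pot {g : ℂ → ℝ} (hg : ContDiff ℝ ∞ g) (hc : HasCompactSupport g) (z : ℂ) :
    lap (pot κ g) z = pot κ (lap g) z := by
  rw [lap_eq ((pot_contDiff κ hg hc).of_le two_le)]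
  have h1 : ∀ e : ℂ, (fun y => fderiv ℝ (pot κ g) y e) = pot κ (fun a => fderiv ℝ g a e) := by
    intro e
    funext y
    exact pot_fderiv_apply κ hg hc e y
  rw [h1, h1, pot_fderiv_apply κ (contDiff_fderiv_apply hg _) (fderiv_apply_hcs hc _),
    pot_fderiv_apply κ (contDiff_fderiv_apply hg _) (fderiv_apply_hcs hc _)]
  have h2 : lap g = (fun a => fderiv ℝ (fun y => fderiv ℝ g y 1) a 1 +
      fderiv ℝ (fun y => fderiv ℝ g y Complex.I) a Complex.I) := by
    funext z
    exact lap_eq (hg.of_le two_le) z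
  rw [h2]
  unfold pot
  exact (integral_add
    (pot_integrable κ (contDiff_fderiv_apply (contDiff_fderiv_apply hg 1) 1).continuous
      (fderiv_apply_hcs (fderiv_apply_hcs hc 1) 1) z)
    (pot_integrable κ (contDiff_fderiv_apply (contDiff_fderiv_apply hg Complex.I) Complex.I).continuous
      (fderiv_apply_hcs (fderiv_apply_hcs hc Complex.I) Complex.I) z)).symm

end pot

/-! ### Radial mollifiers -/

/-- unnormalised radial bump -/
noncomputable def rho (n : ℕ) (z : ℂ) : ℝ := Real.smoothTransition (1 - ((n : ℝ) + 1) ^ 2 * ‖z‖ ^ 2)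

lemma rho_contDiff (n : ℕ) : ContDiff ℝ ∞ (rho n) := by
  have h : ContDiff ℝ ∞ (fun z : ℂ => 1 - ((n : ℝ) + 1) ^ 2 * ‖z‖ ^ 2) :=
    contDiff_const.sub (contDiff_const.mul (contDiff_norm_sq ℝ))
  exact Real.smoothTransition.contDiff.comp h

lemma rho_nonneg (n : ℕ) (z : ℂ) : 0 ≤ rho n z := Real.smoothTransition.nonneg _

lemma rho_pos {n : ℕ} {z : ℂ} (hz : ‖z‖ < 1 / ((n : ℝ) + 1)) : 0 < rho n z := by
  apply Real.smoothTransition.pos_of_pos
  have hn : (0 : ℝ) < (n : ℝ) + 1 := by positivity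
  rw [lt_div_iff₀ hn] at hz
  have h0 : 0 ≤ ‖z‖ * ((n : ℝ) + 1) := by positivity
  nlinarith

lemma rho_zero {n : ℕ} {z : ℂ} (hz : 1 / ((n : ℝ) + 1) ≤ ‖z‖) : rho n z = 0 := by
  apply Real.smoothTransition.zero_of_nonpos
  have hn : (0 : ℝ) < (n : ℝ) + 1 := by positivity
  rw [div_le_iff₀ hn] at hz
  nlinarith

lemma rho_hcs (n : ℕ) : HasCompactSupport (rho n) := by
  apply HasCompactSupport.of_support_subset_isCompact (isCompact_closedBall (0 : ℂ) (1 / ((n : ℝ) + 1)))
  intro z hz
  rw [mem_closedBall_zero_iff]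
  by_contra h
  exact hz (rho_zero (not_le.mp h).le)

lemma rho_int_pos (n : ℕ) : 0 < ∫ z, rho n z := by
  apply (rho_contDiff n).continuous.integral_pos_of_hasCompactSupport_nonneg_nonzero (rho_hcs n)
    (fun z => rho_nonneg n z) (x := 0)
  exact (rho_pos (by rw [norm_zero]; positivity)).ne'

/-- radial mollifiers -/
noncomputable def et (n : ℕ) (z : ℂ) : ℝ := rho n z / ∫ z, rho n z

lemma et_contDiff (n : ℕ) : ContDiff ℝ ∞ (et n) := (rho_contDiff n).div_const _

lemma et_nonneg (n : ℕ) (z : ℂ) : 0 ≤ et n z := div_nonneg (rho_nonneg n z) (rho_int_pos n).le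

lemma et_pos {n : ℕ} {z : ℂ} (hz : ‖z‖ < 1 / ((n : ℝ) + 1)) : 0 < et n z :=
  div_pos (rho_pos hz) (rho_int_pos n)

lemma et_zero {n : ℕ} {z : ℂ} (hz : 1 / ((n : ℝ) + 1) ≤ ‖z‖) : et n z = 0 := by
  rw [et, rho_zero hz, zero_div]

lemma et_hcs (n : ℕ) : HasCompactSupport (et n) := by
  apply HasCompactSupport.of_support_subset_isCompact (isCompact_closedBall (0 : ℂ) (1 / ((n : ℝ) + 1)))
  intro z hz
  rw [mem_closedBall_zero_iff]
  by_contra h
  exact hz (et_zero (not_le.mp h).le)

lemma et_integrable (n : ℕ) : Integrable (et n) :=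
  (et_contDiff n).continuous.integrable_of_hasCompactSupport (et_hcs n)

lemma et_integral (n : ℕ) : ∫ z, et n z = 1 := by
  unfold et
  rw [integral_div, div_self (rho_int_pos n).ne']

lemma et_radial (n : ℕ) {z w : ℂ} (h : ‖z‖ = ‖w‖) : et n z = et n w := by
  unfold et rho
  rw [h]

/-- the countable family of test functions -/
def Fam : Set (ℂ → ℝ) := {v | ∃ n k : ℕ, ‖TopologicalSpace.denseSeq ℂ k‖ + 1 / ((n : ℝ) + 1) < 1 ∧
  v = fun z => et n (TopologicalSpace.denseSeq ℂ k - z)}

lemma Fam_countable : Fam.Countable := by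
  apply Set.Countable.mono (s₂ := Set.range
    (fun p : ℕ × ℕ => fun z => et p.1 (TopologicalSpace.denseSeq ℂ p.2 - z)))
  · rintro v ⟨n, k, -, rfl⟩
    exact ⟨(n, k), rfl⟩
  · exact countable_range _

lemma tsupport_translate' (n : ℕ) (x : ℂ) :
    tsupport (fun z => et n (x - z)) ⊆ closedBall x (1 / ((n : ℝ) + 1)) := by
  apply closure_minimal _ isClosed_closedBall
  intro z hz
  rw [mem_closedBall, dist_comm, dist_eq_norm]
  by_contra h
  exact hz (et_zero (not_le.mp h).le)

lemma Fam_props {v : ℂ → ℝ} (hv : v ∈ Fam) :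
    ContDiff ℝ ∞ v ∧ HasCompactSupport v ∧ tsupport v ⊆ ball 0 1 := by
  obtain ⟨n, k, h, rfl⟩ := hv
  have hs := tsupport_translate' n (TopologicalSpace.denseSeq ℂ k)
  refine ⟨(et_contDiff n).comp (contDiff_const.sub contDiff_id), ?_, ?_⟩
  · exact HasCompactSupport.of_support_subset_isCompact
      (isCompact_closedBall (TopologicalSpace.denseSeq ℂ k) (1 / ((n : ℝ) + 1)))
      (subset_closure.trans hs)
  · intro z hz
    have h1 := hs hz
    rw [mem_closedBall, dist_eq_norm] at h1
    rw [mem_ball_zero_iff]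
    calc ‖z‖ = ‖(z - TopologicalSpace.denseSeq ℂ k) + TopologicalSpace.denseSeq ℂ k‖ := by
          rw [sub_add_cancel]
      _ ≤ _ := norm_add_le _ _
      _ < 1 := by linarith

/-! ### Radial averaging -/

lemma circle_avg_rotate {f : ℂ → ℝ} (z u : ℂ) :
    ∫ θ in (0 : ℝ)..2 * Real.pi, f (z - circleMap 0 1 θ * u) =
      2 * Real.pi * Real.circleAverage f z ‖u‖ := by
  rw [Real.circleAverage_eq_integral_add (Complex.arg (-u)), smul_eq_mul, ← mul_assoc,
    mul_inv_cancel₀ (by positivity), one_mul]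
  congr 1
  funext θ
  congr 1
  have h : (‖u‖ : ℂ) * Complex.exp (Complex.arg (-u) * Complex.I) = -u := by
    rw [← norm_neg u]
    exact Complex.norm_mul_exp_arg_mul_I (-u)
  simp only [circleMap, zero_add, Complex.ofReal_one, one_mul, Complex.ofReal_add, add_mul,
    Complex.exp_add]
  linear_combination -Complex.exp (θ * Complex.I) * h

lemma radial_avg {f : ℂ → ℝ} (hf : Continuous f) {g : ℂ → ℝ} (hg : Continuous g)
    (hc : HasCompactSupport g) (hrad : ∀ z w : ℂ, ‖z‖ = ‖w‖ → g z = g w) (z : ℂ)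
    (havg : ∀ u, g u ≠ 0 → Real.circleAverage f z ‖u‖ = f z) :
    ∫ u, f (z - u) * g u = f z * ∫ u, g u := by
  have hpi : (0 : ℝ) < 2 * Real.pi := by positivity
  -- rotation invariance
  have hrot : ∀ θ : ℝ, ∫ u, f (z - circleMap 0 1 θ * u) * g u = ∫ u, f (z - u) * g u := by
    intro θ
    have hn : ‖circleMap 0 1 θ‖ = 1 := by simp
    let a : Circle := ⟨circleMap 0 1 θ, by simp [Submonoid.unitSphere, hn]⟩
    have h := (rotation a).measurePreserving.integral_comp
      (rotation a).toMeasurableEquiv.measurableEmbedding (fun u => f (z - u) * g u)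
    rw [← h]
    congr 1
    funext u
    have h1 : rotation a u = circleMap 0 1 θ * u := by
      rw [rotation_apply]
    rw [h1]
    congr 1
    apply hrad
    rw [norm_mul, hn, one_mul]
  have hI : ∫ θ in (0 : ℝ)..2 * Real.pi, ∫ u, f (z - circleMap 0 1 θ * u) * g u =
      2 * Real.pi * ∫ u, f (z - u) * g u := by
    simp_rw [hrot]
    simp
  have hcont : Continuous (Function.uncurry fun (θ : ℝ) (u : ℂ) =>
      f (z - circleMap 0 1 θ * u) * g u) := by
    unfold Function.uncurry
    apply Continuous.mul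
    · apply hf.comp
      apply Continuous.sub continuous_const
      exact ((continuous_circleMap 0 1).comp continuous_fst).mul continuous_snd
    · exact hg.comp continuous_snd
  have hswap : ∫ θ in (0 : ℝ)..2 * Real.pi, ∫ u, f (z - circleMap 0 1 θ * u) * g u =
      ∫ u, ∫ θ in (0 : ℝ)..2 * Real.pi, f (z - circleMap 0 1 θ * u) * g u := by
    apply intervalIntegral_integral_swap
    -- bound
    obtain ⟨R, hR⟩ : ∃ R, tsupport g ⊆ closedBall 0 R :=
      (hc.isCompact.isBounded).subset_closedBall 0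
    obtain ⟨C, hC⟩ := (isCompact_closedBall z R).exists_bound_of_continuousOn hf.continuousOn
    have hgi : Integrable g := hg.integrable_of_hasCompactSupport hc
    have : IsFiniteMeasure (volume.restrict (uIoc 0 (2 * Real.pi))) := by
      rw [uIoc_of_le hpi.le]
      infer_instance
    have hb : Integrable (fun p : ℝ × ℂ => (1 : ℝ) * (C * ‖g p.2‖))
        ((volume.restrict (uIoc 0 (2 * Real.pi))).prod volume) := by
      apply Integrable.mul_prod (f := fun _ : ℝ => (1 : ℝ)) (g := fun u : ℂ => C * ‖g u‖)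
      · exact integrable_const _
      · exact hgi.norm.const_mul C
    refine hb.mono' hcont.aestronglyMeasurable (ae_of_all _ ?_)
    rintro ⟨θ, u⟩
    simp only [Function.uncurry, norm_mul, one_mul]
    by_cases hu : u ∈ tsupport g
    · apply mul_le_mul_of_nonneg_right _ (norm_nonneg _)
      apply hC
      rw [mem_closedBall, dist_eq_norm]
      have := hR hu
      rw [mem_closedBall_zero_iff] at this
      simpa using this
    · rw [image_eq_zero_of_notMem_tsupport hu]
      simp
  have hin : ∀ u, ∫ θ in (0 : ℝ)..2 * Real.pi, f (z - circleMap 0 1 θ * u) * g u =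
      2 * Real.pi * (f z * g u) := by
    intro u
    rw [intervalIntegral.integral_mul_const, circle_avg_rotate]
    by_cases hu : g u = 0
    · rw [hu]; simp
    · rw [havg u hu]; ring
  rw [hI] at hswap
  simp_rw [hin] at hswap
  rw [integral_const_mul, integral_const_mul] at hswap
  exact mul_left_cancel₀ hpi.ne' hswap

/-! ### The mollified measure -/

/-- mollification -/
noncomputable def w (κ : Measure ℂ) (n : ℕ) : ℂ → ℝ := pot κ (et n)

/-- `1 / (n + 1)` -/
noncomputable abbrev ep (n : ℕ) : ℝ := 1 / ((n : ℝ) + 1)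

lemma ep_pos (n : ℕ) : 0 < ep n := by positivity

section main

variable {κ : Measure ℂ} [IsFiniteMeasure κ]

omit [IsFiniteMeasure κ] in
lemma w_nonneg (n : ℕ) (z : ℂ) : 0 ≤ w κ n z := integral_nonneg fun _ => et_nonneg n _

lemma w_contDiff (n : ℕ) : ContDiff ℝ ∞ (w κ n) := pot_contDiff κ (et_contDiff n) (et_hcs n)

lemma w_lap_zero (hV : ∀ v ∈ Fam, ∫ z, lap v z ∂κ = 0) (n : ℕ) {z : ℂ}
    (hz : ‖z‖ + ep n < 1) : lap (w κ n) z = 0 := by
  have hcont : Continuous (lap (w κ n)) := lap_continuous (w_contDiff n)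
  have hopen : IsOpen {z : ℂ | ‖z‖ + ep n < 1} :=
    isOpen_lt (by fun_prop) continuous_const
  have hsub := (TopologicalSpace.denseRange_denseSeq ℂ).open_subset_closure_inter hopen
  have hcl : IsClosed {z : ℂ | lap (w κ n) z = 0} := isClosed_eq hcont continuous_const
  have hmin : closure ({z : ℂ | ‖z‖ + ep n < 1} ∩ Set.range (TopologicalSpace.denseSeq ℂ)) ⊆
      {z : ℂ | lap (w κ n) z = 0} := by
    apply closure_minimal _ hcl
    rintro c ⟨hc, k, rfl⟩
    show lap (w κ n) (TopologicalSpace.denseSeq ℂ k) = 0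
    rw [w, lap_pot κ (et_contDiff n) (et_hcs n)]
    have h := hV (fun z => et n (TopologicalSpace.denseSeq ℂ k - z)) ⟨n, k, hc, rfl⟩
    simp_rw [lap_reflect (et_contDiff n)] at h
    exact h
  exact hmin (hsub hz)

open InnerProductSpace in
lemma w_harmonic (hV : ∀ v ∈ Fam, ∫ z, lap v z ∂κ = 0) (n : ℕ) {z : ℂ} {r : ℝ}
    (hz : ‖z‖ + |r| + ep n < 1) : HarmonicOnNhd (w κ n) (closedBall z |r|) := by
  intro x hx
  have hx' : ‖x‖ + ep n < 1 := by
    rw [mem_closedBall, dist_eq_norm] at hx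
    have : ‖x‖ ≤ ‖x - z‖ + ‖z‖ := by
      calc ‖x‖ = ‖(x - z) + z‖ := by rw [sub_add_cancel]
        _ ≤ _ := norm_add_le _ _
    linarith
  refine ⟨((w_contDiff n).of_le two_le).contDiffAt, ?_⟩
  have hopen : IsOpen {z : ℂ | ‖z‖ + ep n < 1} :=
    isOpen_lt (by fun_prop) continuous_const
  filter_upwards [hopen.mem_nhds hx'] with y hy
  have h := w_lap_zero (κ := κ) hV n hy
  rw [laplacian_eq_iteratedFDeriv_complexPlane]
  simp only [iteratedFDeriv_two_apply]
  simpa [lap] using h

lemma w_circle (hV : ∀ v ∈ Fam, ∫ z, lap v z ∂κ = 0) (n : ℕ) {z : ℂ} {r : ℝ}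
    (hz : ‖z‖ + |r| + ep n < 1) : Real.circleAverage (w κ n) z r = w κ n z :=
  (w_harmonic hV n hz).circleAverage_eq

lemma w_avg (hV : ∀ v ∈ Fam, ∫ z, lap v z ∂κ = 0) (n m : ℕ) {z : ℂ}
    (hz : ‖z‖ + ep n + ep m < 1) : ∫ u, w κ n (z - u) * et m u = w κ n z := by
  rw [radial_avg (w_contDiff n).continuous (et_contDiff m).continuous (et_hcs m)
    (fun z w h => et_radial m h) z, et_integral, mul_one]
  intro u hu
  have hu' : ‖u‖ < ep m := by
    by_contra h
    exact hu (et_zero (not_lt.mp h))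
  apply w_circle hV
  rw [abs_norm]
  linarith

lemma w_swap (n m : ℕ) (z : ℂ) :
    ∫ u, w κ n (z - u) * et m u = ∫ u, w κ m (z - u) * et n u := by
  have key : ∀ n m : ℕ, ∫ u, w κ n (z - u) * et m u =
      ∫ t, ∫ u, et n (z - u - t) * et m u ∂volume ∂κ := by
    intro n m
    unfold w pot
    simp_rw [← integral_mul_const]
    apply integral_integral_swap
    have hcont : Continuous (Function.uncurry fun (u t : ℂ) => et n (z - u - t) * et m u) := by
      unfold Function.uncurry
      apply Continuous.mul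
      · exact (et_contDiff n).continuous.comp (by fun_prop)
      · exact (et_contDiff m).continuous.comp continuous_fst
    obtain ⟨C, hC⟩ := (et_hcs n).exists_bound_of_continuous (et_contDiff n).continuous
    have hb : Integrable (fun p : ℂ × ℂ => (C * et m p.1) * (1 : ℝ)) (volume.prod κ) := by
      apply Integrable.mul_prod (f := fun u : ℂ => C * et m u) (g := fun _ : ℂ => (1 : ℝ))
      · exact (et_integrable m).const_mul C
      · exact integrable_const _
    refine hb.mono' hcont.aestronglyMeasurable (ae_of_all _ ?_)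
    rintro ⟨u, t⟩
    simp only [Function.uncurry, norm_mul, mul_one]
    rw [Real.norm_of_nonneg (et_nonneg m u)]
    exact mul_le_mul_of_nonneg_right (hC _) (et_nonneg m u)
  rw [key, key]
  congr 1
  funext t
  rw [← integral_sub_left_eq_self (fun u => et n (z - u - t) * et m u) volume (z - t)]
  congr 1
  funext u
  have h1 : z - (z - t - u) - t = u := by ring
  have h2 : z - t - u = z - u - t := by ring
  rw [h1, h2, mul_comm]

lemma w_eq (hV : ∀ v ∈ Fam, ∫ z, lap v z ∂κ = 0) (n m : ℕ) {z : ℂ}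
    (hz : ‖z‖ + ep n + ep m < 1) : w κ n z = w κ m z := by
  rw [← w_avg hV n m hz, ← w_avg hV m n (by linarith), w_swap]

/-- the density -/
noncomputable def Hf (κ : Measure ℂ) (z : ℂ) : ℝ :=
  if ‖z‖ < 1 then w κ (Nat.ceil (2 / (1 - ‖z‖))) z else 0

lemma Hf_eq (hV : ∀ v ∈ Fam, ∫ z, lap v z ∂κ = 0) {n : ℕ} {z : ℂ}
    (hz : ‖z‖ + 2 * ep n < 1) : Hf κ z = w κ n z := by
  have h1 : ‖z‖ < 1 := by linarith [ep_pos n]
  rw [Hf, if_pos h1]
  set N := Nat.ceil (2 / (1 - ‖z‖)) with hN
  have hN' : 2 / (1 - ‖z‖) ≤ N := Nat.le_ceil _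
  have hpos : 0 < 1 - ‖z‖ := by linarith
  have h2 : ‖z‖ + 2 * ep N < 1 := by
    rw [div_le_iff₀ hpos] at hN'
    have h3 : ep N * ((N : ℝ) + 1) = 1 := by
      have : (0 : ℝ) < (N : ℝ) + 1 := by positivity
      unfold ep
      field_simp
    have h4 : (0 : ℝ) ≤ N := Nat.cast_nonneg N
    by_contra hcon
    push Not at hcon
    have h5 : 1 - ‖z‖ ≤ 2 * ep N := by linarith
    have h6 := ep_pos N
    nlinarith
  apply w_eq hV
  linarith

lemma exists_ep {x : ℝ} (hx : x < 1) : ∃ n : ℕ, x + 2 * ep n < 1 := by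
  obtain ⟨n, hn⟩ := exists_nat_one_div_lt (show 0 < (1 - x) / 2 by linarith)
  exact ⟨n, by unfold ep; linarith⟩

lemma Hf_eventuallyEq (hV : ∀ v ∈ Fam, ∫ z, lap v z ∂κ = 0) {n : ℕ} {z : ℂ}
    (hz : ‖z‖ + 2 * ep n < 1) : Hf κ =ᶠ[𝓝 z] w κ n := by
  have hopen : IsOpen {z : ℂ | ‖z‖ + 2 * ep n < 1} :=
    isOpen_lt (by fun_prop) continuous_const
  filter_upwards [hopen.mem_nhds hz] with y hy
  exact Hf_eq hV hy

lemma Hf_continuousOn (hV : ∀ v ∈ Fam, ∫ z, lap v z ∂κ = 0) : ContinuousOn (Hf κ) (ball 0 1) := by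
  intro z hz
  rw [mem_ball_zero_iff] at hz
  obtain ⟨n, hn⟩ := exists_ep hz
  exact (((w_contDiff n).continuous.continuousAt).congr
    (Hf_eventuallyEq hV hn).symm).continuousWithinAt

lemma Hf_measurable (hV : ∀ v ∈ Fam, ∫ z, lap v z ∂κ = 0) : Measurable (Hf κ) := by
  classical
  have h := (Hf_continuousOn hV).measurable_piecewise
    (continuousOn_const (c := (0 : ℝ)) (s := (ball (0 : ℂ) 1)ᶜ)) measurableSet_ball
  convert h using 1
  funext z
  by_cases hz : z ∈ ball (0 : ℂ) 1
  · rw [piecewise_eq_of_mem _ _ _ hz]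
  · rw [piecewise_eq_of_notMem _ _ _ hz, Hf, if_neg]
    rwa [mem_ball_zero_iff] at hz

omit [IsFiniteMeasure κ] in
lemma Hf_nonneg (z : ℂ) : 0 ≤ Hf κ z := by
  unfold Hf
  split_ifs
  · exact w_nonneg _ _
  · exact le_rfl

lemma ofReal_w (n : ℕ) (z : ℂ) :
    ENNReal.ofReal (w κ n z) = ∫⁻ t, ENNReal.ofReal (et n (z - t)) ∂κ :=
  ofReal_integral_eq_lintegral_ofReal (pot_integrable κ (et_contDiff n).continuous (et_hcs n) z)
    (ae_of_all _ fun _ => et_nonneg n _)

lemma lint_et (n : ℕ) (t : ℂ) : ∫⁻ z, ENNReal.ofReal (et n (z - t)) = 1 := by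
  rw [lintegral_sub_right_eq_self (fun z => ENNReal.ofReal (et n z)) t,
    ← ofReal_integral_eq_lintegral_ofReal (et_integrable n) (ae_of_all _ fun _ => et_nonneg n _),
    et_integral, ENNReal.ofReal_one]

/-- inner integral -/
noncomputable def inn (f : ℂ → ENNReal) (n : ℕ) (t : ℂ) : ENNReal :=
  ∫⁻ z in ball 0 (1 - 2 * ep n), f z * ENNReal.ofReal (et n (z - t))

lemma tonelli {f : ℂ → ENNReal} (hf : Measurable f) (n : ℕ) :
    ∫⁻ z in ball 0 (1 - 2 * ep n), f z * ENNReal.ofReal (w κ n z) = ∫⁻ t, inn f n t ∂κ := by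
  unfold inn
  have hm : Measurable (Function.uncurry fun (z t : ℂ) => f z * ENNReal.ofReal (et n (z - t))) := by
    unfold Function.uncurry
    apply (hf.comp measurable_fst).mul
    apply ENNReal.measurable_ofReal.comp
    exact ((et_contDiff n).continuous.comp (by fun_prop : Continuous fun p : ℂ × ℂ => p.1 - p.2)).measurable
  rw [← lintegral_lintegral_swap hm.aemeasurable]
  congr 1
  funext z
  rw [ofReal_w, lintegral_const_mul]
  apply ENNReal.measurable_ofReal.comp
  exact ((et_contDiff n).continuous.comp (by fun_prop : Continuous fun t : ℂ => z - t)).measurable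

lemma inn_measurable {f : ℂ → ENNReal} (hf : Measurable f) (n : ℕ) : Measurable (inn f n) := by
  unfold inn
  apply Measurable.lintegral_prod_left'
    (f := fun p : ℂ × ℂ => f p.1 * ENNReal.ofReal (et n (p.1 - p.2)))
  apply (hf.comp measurable_fst).mul
  apply ENNReal.measurable_ofReal.comp
  exact ((et_contDiff n).continuous.comp (by fun_prop : Continuous fun p : ℂ × ℂ => p.1 - p.2)).measurable

lemma inn_le {f : ℂ → ENNReal} {C : ENNReal} (hC : ∀ z, f z ≤ C) (n : ℕ) (t : ℂ) :
    inn f n t ≤ C := by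
  calc inn f n t ≤ ∫⁻ z, f z * ENNReal.ofReal (et n (z - t)) := setLIntegral_le_lintegral _ _
    _ ≤ ∫⁻ z, C * ENNReal.ofReal (et n (z - t)) := by
        apply lintegral_mono
        intro z
        exact mul_le_mul_left (hC z) _
    _ = C := by
        rw [lintegral_const_mul, lint_et, mul_one]
        apply ENNReal.measurable_ofReal.comp
        exact ((et_contDiff n).continuous.comp (by fun_prop : Continuous fun z : ℂ => z - t)).measurable

lemma inn_bounds {f : ℂ → ENNReal} {n : ℕ} {t : ℂ} {a b : ENNReal} (ht : ‖t‖ + 3 * ep n < 1)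
    (ha : ∀ z, ‖z - t‖ < ep n → a ≤ f z) (hb : ∀ z, ‖z - t‖ < ep n → f z ≤ b) :
    a ≤ inn f n t ∧ inn f n t ≤ b := by
  have hmeas : Measurable fun z : ℂ => ENNReal.ofReal (et n (z - t)) := by
    apply ENNReal.measurable_ofReal.comp
    exact ((et_contDiff n).continuous.comp (by fun_prop : Continuous fun z : ℂ => z - t)).measurable
  have h0 : ∀ z, ¬ ‖z - t‖ < ep n → ENNReal.ofReal (et n (z - t)) = 0 := by
    intro z hz
    rw [et_zero (not_lt.mp hz), ENNReal.ofReal_zero]
  have hset : ∀ c : ENNReal, ∫⁻ z in ball 0 (1 - 2 * ep n), c * ENNReal.ofReal (et n (z - t)) = c := by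
    intro c
    have h1 : ∫⁻ z in ball 0 (1 - 2 * ep n), c * ENNReal.ofReal (et n (z - t)) =
        ∫⁻ z, c * ENNReal.ofReal (et n (z - t)) := by
      rw [← lintegral_indicator measurableSet_ball]
      congr 1
      funext z
      by_cases hz : z ∈ ball (0 : ℂ) (1 - 2 * ep n)
      · rw [indicator_of_mem hz]
      · rw [indicator_of_notMem hz, h0, mul_zero]
        intro hlt
        apply hz
        rw [mem_ball_zero_iff]
        have : ‖z‖ ≤ ‖z - t‖ + ‖t‖ := by
          calc ‖z‖ = ‖(z - t) + t‖ := by rw [sub_add_cancel]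
            _ ≤ _ := norm_add_le _ _
        linarith
    rw [h1, lintegral_const_mul _ hmeas, lint_et, mul_one]
  constructor
  · rw [← hset a]
    apply lintegral_mono
    intro z
    by_cases hz : ‖z - t‖ < ep n
    · exact mul_le_mul_left (ha z hz) _
    · simp only [h0 z hz, mul_zero, le_refl]
  · rw [← hset b]
    apply lintegral_mono
    intro z
    by_cases hz : ‖z - t‖ < ep n
    · exact mul_le_mul_left (hb z hz) _
    · simp only [h0 z hz, mul_zero, le_refl]

lemma ep_tendsto : Tendsto ep atTop (𝓝 0) := tendsto_one_div_add_atTop_nhds_zero_nat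

lemma inn_tendsto {f : ℂ → ENNReal} (hf : Continuous f) (hft : ∀ z, f z ≠ ⊤) {t : ℂ}
    (ht : ‖t‖ < 1) : Tendsto (fun n => inn f n t) atTop (𝓝 (f t)) := by
  rw [ENNReal.tendsto_nhds (hft t)]
  intro ε hε
  have hnb : ∀ᶠ z in 𝓝 t, f z ∈ Icc (f t - ε) (f t + ε) :=
    (ENNReal.tendsto_nhds (hft t)).mp hf.continuousAt ε hε
  obtain ⟨δ, hδ, hball⟩ := Metric.eventually_nhds_iff.mp hnb
  have h1 : ∀ᶠ n : ℕ in atTop, ep n < δ := ep_tendsto.eventually_lt_const hδ
  have h2 : ∀ᶠ n : ℕ in atTop, ep n < (1 - ‖t‖) / 3 :=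
    ep_tendsto.eventually_lt_const (by linarith)
  filter_upwards [h1, h2] with n hn1 hn2
  apply inn_bounds (by linarith)
  · intro z hz
    exact (hball (by rw [dist_eq_norm]; linarith)).1
  · intro z hz
    exact (hball (by rw [dist_eq_norm]; linarith)).2

lemma measure_eq (hκ : κ (ball (0 : ℂ) 1)ᶜ = 0) (hV : ∀ v ∈ Fam, ∫ z, lap v z ∂κ = 0) :
    κ = (volume.restrict (ball (0 : ℂ) 1)).withDensity (fun z => ENNReal.ofReal (Hf κ z)) := by
  apply ext_of_forall_lintegral_eq_of_IsFiniteMeasure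
  intro f
  have hfc : Continuous (fun z => (f z : ENNReal)) := ENNReal.continuous_coe.comp f.continuous
  have hHm : Measurable fun z => ENNReal.ofReal (Hf κ z) :=
    ENNReal.measurable_ofReal.comp (Hf_measurable hV)
  rw [lintegral_withDensity_eq_lintegral_mul _ hHm hfc.measurable]
  -- first limit
  have L1 : Tendsto (fun n : ℕ => ∫⁻ t, inn (fun z => (f z : ENNReal)) n t ∂κ) atTop
      (𝓝 (∫⁻ t, (f t : ENNReal) ∂κ)) := by
    apply tendsto_lintegral_of_dominated_convergence (fun _ => ((nndist f 0 : NNReal) : ENNReal))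
    · intro n
      exact inn_measurable hfc.measurable n
    · intro n
      refine ae_of_all _ fun t => inn_le (fun z => ?_) n t
      rw [ENNReal.coe_le_coe, ← NNReal.coe_le_coe]
      have := BoundedContinuousFunction.NNReal.upper_bound f z
      exact_mod_cast this
    · rw [lintegral_const]
      exact ENNReal.mul_ne_top ENNReal.coe_ne_top (measure_ne_top _ _)
    · have hae : ∀ᵐ t ∂κ, t ∈ ball (0 : ℂ) 1 := by
        rw [ae_iff]
        exact hκ
      filter_upwards [hae] with t ht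
      rw [mem_ball_zero_iff] at ht
      exact inn_tendsto hfc (fun z => ENNReal.coe_ne_top) ht
  have L2 : Tendsto (fun n : ℕ => ∫⁻ t, inn (fun z => (f z : ENNReal)) n t ∂κ) atTop
      (𝓝 (∫⁻ z in ball 0 1, (f z : ENNReal) * ENNReal.ofReal (Hf κ z))) := by
    have h1 : ∀ n : ℕ, ∫⁻ t, inn (fun z => (f z : ENNReal)) n t ∂κ =
        ∫⁻ z, (ball (0 : ℂ) (1 - 2 * ep n)).indicator
          (fun z => (f z : ENNReal) * ENNReal.ofReal (Hf κ z)) z := by
      intro n
      rw [← tonelli hfc.measurable, lintegral_indicator measurableSet_ball]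
      apply setLIntegral_congr_fun measurableSet_ball
      intro z hz
      rw [mem_ball_zero_iff] at hz
      simp only
      rw [Hf_eq hV (n := n) (by linarith)]
    simp_rw [h1]
    rw [← lintegral_indicator measurableSet_ball]
    apply lintegral_tendsto_of_tendsto_of_monotone
    · intro n
      exact ((hfc.measurable.mul hHm).indicator measurableSet_ball).aemeasurable
    · refine ae_of_all _ fun z => ?_
      intro n m hnm
      apply indicator_le_indicator_of_subset
      · apply ball_subset_ball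
        have : ep m ≤ ep n := by
          unfold ep
          apply one_div_le_one_div_of_le (by positivity)
          have : (n : ℝ) ≤ m := by exact_mod_cast hnm
          linarith
        linarith
      · intro z; exact bot_le
    · refine ae_of_all _ fun z => ?_
      by_cases hz : z ∈ ball (0 : ℂ) 1
      · rw [indicator_of_mem hz]
        rw [mem_ball_zero_iff] at hz
        apply tendsto_const_nhds.congr'
        have h2 : ∀ᶠ n : ℕ in atTop, ep n < (1 - ‖z‖) / 2 :=
          ep_tendsto.eventually_lt_const (by linarith)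
        filter_upwards [h2] with n hn
        rw [indicator_of_mem]
        rw [mem_ball_zero_iff]
        linarith
      · rw [indicator_of_notMem hz]
        apply tendsto_const_nhds.congr
        intro n
        rw [indicator_of_notMem]
        intro hz'
        apply hz
        rw [mem_ball_zero_iff] at hz' ⊢
        linarith [ep_pos n]
  rw [tendsto_nhds_unique L1 L2]
  congr 1
  funext z
  simp only [Pi.mul_apply]
  rw [mul_comm]

lemma ball_null {n : ℕ} {z : ℂ} (h : w κ n z = 0) : κ (ball z (ep n)) = 0 := by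
  have h1 : (fun t => et n (z - t)) =ᵐ[κ] 0 := by
    rw [← integral_eq_zero_iff_of_nonneg (fun t => et_nonneg n _)
      (pot_integrable κ (et_contDiff n).continuous (et_hcs n) z)]
    exact h
  have h2 : ball z (ep n) ⊆ {t | ¬ (et n (z - t) = (0 : ℂ → ℝ) t)} := by
    intro t ht hcon
    rw [mem_ball, dist_comm, dist_eq_norm] at ht
    have := et_pos ht
    simp only [Pi.zero_apply] at hcon
    linarith
  exact measure_mono_null h2 h1

omit [IsFiniteMeasure κ] in
lemma w_zero_of_ball_null {m : ℕ} {z : ℂ} (h : κ (ball z (ep m)) = 0) : w κ m z = 0 := by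
  unfold w pot
  apply integral_eq_zero_of_ae
  rw [EventuallyEq, ae_iff]
  refine measure_mono_null ?_ h
  intro t ht
  rw [mem_ball, dist_comm, dist_eq_norm]
  by_contra hcon
  exact ht (et_zero (not_lt.mp hcon))

lemma Hf_pos (hκ : κ (ball (0 : ℂ) 1)ᶜ = 0) (hV : ∀ v ∈ Fam, ∫ z, lap v z ∂κ = 0)
    (hne : κ ≠ 0) : ∀ z ∈ ball (0 : ℂ) 1, 0 < Hf κ z := by
  by_contra hcon
  push Not at hcon
  obtain ⟨z₀, hz₀, hH₀⟩ := hcon
  have hpre : IsPreconnected (ball (0 : ℂ) 1) := (convex_ball 0 1).isPreconnected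
  set U : Set ℂ := {z | z ∈ ball (0 : ℂ) 1 ∧ Hf κ z = 0} with hU
  set W : Set ℂ := {z | z ∈ ball (0 : ℂ) 1 ∧ 0 < Hf κ z} with hW
  have hUo : IsOpen U := by
    rw [isOpen_iff_mem_nhds]
    rintro z ⟨hz, hHz⟩
    have hz1 : ‖z‖ < 1 := by rwa [mem_ball_zero_iff] at hz
    obtain ⟨n, hn⟩ := exists_ep hz1
    have hw : w κ n z = 0 := by rw [← Hf_eq hV hn, hHz]
    have hnull := ball_null hw
    filter_upwards [isOpen_ball.mem_nhds hz, ball_mem_nhds z (half_pos (ep_pos n))] with y hy hy2
    refine ⟨hy, ?_⟩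
    have hy1 : ‖y‖ < 1 := by rwa [mem_ball_zero_iff] at hy
    have e1 : ∀ᶠ m : ℕ in atTop, ep m < (1 - ‖y‖) / 2 :=
      ep_tendsto.eventually_lt_const (by linarith)
    have e2 : ∀ᶠ m : ℕ in atTop, ep m < ep n / 2 :=
      ep_tendsto.eventually_lt_const (half_pos (ep_pos n))
    obtain ⟨m, hm1, hm2⟩ := (e1.and e2).exists
    rw [Hf_eq hV (n := m) (by linarith)]
    apply w_zero_of_ball_null
    refine measure_mono_null ?_ hnull
    intro x hx
    rw [mem_ball] at hx hy2 ⊢
    calc dist x z ≤ dist x y + dist y z := dist_triangle _ _ _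
      _ < ep n := by linarith
  have hWo : IsOpen W := by
    have := (Hf_continuousOn hV).isOpen_inter_preimage isOpen_ball (isOpen_Ioi (a := (0 : ℝ)))
    exact this
  have hdisj : Disjoint U W := by
    rw [Set.disjoint_left]
    rintro z ⟨-, h1⟩ ⟨-, h2⟩
    linarith
  have hcov : ball (0 : ℂ) 1 ⊆ U ∪ W := by
    intro z hz
    rcases (Hf_nonneg (κ := κ) z).eq_or_lt with h | h
    · exact Or.inl ⟨hz, h.symm⟩
    · exact Or.inr ⟨hz, h⟩
  have hsub := hpre.subset_left_of_subset_union hUo hWo hdisj hcov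
    ⟨z₀, hz₀, hz₀, le_antisymm hH₀ (Hf_nonneg z₀)⟩
  apply hne
  rw [measure_eq hκ hV]
  ext s hs
  rw [withDensity_apply _ hs, Measure.restrict_restrict hs]
  simp only [Measure.coe_zero, Pi.zero_apply]
  apply setLIntegral_eq_zero (hs.inter measurableSet_ball)
  intro z hz
  have h0 := (hsub hz.2).2
  simp [h0]

end main

/-- B. Weyl lemma for positive measures, tested on a countable family. -/
theorem weyl : ∃ V : Set (ℂ → ℝ), V.Countable ∧
    (∀ v ∈ V, ContDiff ℝ ∞ v ∧ HasCompactSupport v ∧ tsupport v ⊆ ball 0 1) ∧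
    ∀ κ : Measure ℂ, IsFiniteMeasure κ → κ (ball (0 : ℂ) 1)ᶜ = 0 →
      (∀ v ∈ V, ∫ z, lap v z ∂κ = 0) →
      ∃ h : ℂ → ℝ, Measurable h ∧ ContinuousOn h (ball 0 1) ∧ (∀ z ∈ ball (0 : ℂ) 1, 0 ≤ h z) ∧
        κ = (volume.restrict (ball (0 : ℂ) 1)).withDensity (fun z => ENNReal.ofReal (h z)) ∧
        (κ ≠ 0 → ∀ z ∈ ball (0 : ℂ) 1, 0 < h z) := by
  refine ⟨Fam, Fam_countable, fun v hv => Fam_props hv, fun κ _ hκ hV => ?_⟩
  exact ⟨Hf κ, Hf_measurable hV, Hf_continuousOn hV, fun z _ => Hf_nonneg z, measure_eq hκ hV,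
    fun hne => Hf_pos hκ hV hne⟩

end Pool.Agent.H95.Nev
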