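import Pool.Agent.H45.Nev.LeafDefs

/-!
# Smooth (1,1)-forms in charts
-/

open MeasureTheory Set Metric Filter Topology
open scoped ContDiff Manifold

namespace Pool.Agent.H95.Nev
open Pool.Agent.H45.Nev

variable {E : Type*} [NormedAddCommGroup E] [NormedSpace ℂ E]
  {M : Type*} [TopologicalSpace M] [ChartedSpace E M]

/-- evaluation of a form, without dependent types -/
noncomputable def ev (θ : SesqField E M) (x : M) (v w : E) : ℂ := θ x v w

/-- derivative of a chart -/
noncomputable def D (e : OpenPartialHomeomorph M E) (x : M) : E →L[ℂ] E :=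
  mfderiv 𝓘(ℂ, E) 𝓘(ℂ, E) e x

/-- derivative of the inverse of a chart -/
noncomputable def Di (e : OpenPartialHomeomorph M E) (y : E) : E →L[ℂ] E :=
  mfderiv 𝓘(ℂ, E) 𝓘(ℂ, E) e.symm y

lemma inChart_ev (e : OpenPartialHomeomorph M E) (θ : SesqField E M) (v w y : E) :
    inChart e θ v w y = ev θ (e.symm y) (Di e y v) (Di e y w) := rfl

section ev
variable (θ : SesqField E M) (x : M)

lemma ev_add_left (v v' w : E) : ev θ x (v + v') w = ev θ x v w + ev θ x v' w := by
  have h := (θ x).map_add v v'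
  exact congrArg (fun L : TangentSpace 𝓘(ℂ, E) x →ₗ⋆[ℂ] ℂ => L w) h

lemma ev_smul_left (c : ℂ) (v w : E) : ev θ x (c • v) w = c * ev θ x v w := by
  have h := (θ x).map_smul c v
  exact congrArg (fun L : TangentSpace 𝓘(ℂ, E) x →ₗ⋆[ℂ] ℂ => L w) h

lemma ev_add_right (v w w' : E) : ev θ x v (w + w') = ev θ x v w + ev θ x v w' :=
  (θ x v).map_add w w'

lemma ev_smul_right (c : ℂ) (v w : E) : ev θ x v (c • w) = (starRingEnd ℂ) c * ev θ x v w :=
  (θ x v).map_smulₛₗ c w

/-- `ev` as a linear map in the first variable -/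
noncomputable def evL (w : E) : E →ₗ[ℂ] ℂ where
  toFun v := ev θ x v w
  map_add' v v' := ev_add_left θ x v v' w
  map_smul' c v := by simp [ev_smul_left]

/-- `ev` as a conjugate linear map in the second variable -/
noncomputable def evR (v : E) : E →ₗ⋆[ℂ] ℂ where
  toFun w := ev θ x v w
  map_add' w w' := ev_add_right θ x v w w'
  map_smul' c w := by simp [ev_smul_right]

lemma ev_sum_left {ι : Type*} (s : Finset ι) (f : ι → E) (w : E) :
    ev θ x (∑ i ∈ s, f i) w = ∑ i ∈ s, ev θ x (f i) w := map_sum (evL θ x w) f s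

lemma ev_sum_right {ι : Type*} (s : Finset ι) (f : ι → E) (v : E) :
    ev θ x v (∑ i ∈ s, f i) = ∑ i ∈ s, ev θ x v (f i) := map_sum (evR θ x v) f s

lemma ev_zero_left (w : E) : ev θ x 0 w = 0 := (evL θ x w).map_zero
lemma ev_zero_right (v : E) : ev θ x v 0 = 0 := (evR θ x v).map_zero

end ev

lemma ev_add (θ η : SesqField E M) (x : M) (v w : E) :
    ev (θ + η) x v w = ev θ x v w + ev η x v w := rfl

lemma ev_smul (c : ℂ) (θ : SesqField E M) (x : M) (v w : E) :
    ev (c • θ) x v w = c * ev θ x v w := rfl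

lemma ev_sub (θ η : SesqField E M) (x : M) (v w : E) :
    ev (θ - η) x v w = ev θ x v w - ev η x v w := rfl

section charts
variable [IsManifold 𝓘(ℂ, E) ω M] {e e' : OpenPartialHomeomorph M E}

omit [IsManifold 𝓘(ℂ, E) ω M] in
lemma mdiff_of_mem (he : e ∈ IsManifold.maximalAtlas 𝓘(ℂ, E) ω M) :
    e.MDifferentiable 𝓘(ℂ, E) 𝓘(ℂ, E) :=
  ⟨fun x hx => ((contMDiffAt_of_mem_maximalAtlas he hx).mdifferentiableAt
      (by simp)).mdifferentiableWithinAt,
    fun y hy => (((contMDiffOn_symm_of_mem_maximalAtlas he).contMDiffAt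
      (e.open_target.mem_nhds hy)).mdifferentiableAt (by simp)).mdifferentiableWithinAt⟩

omit [IsManifold 𝓘(ℂ, E) ω M] in
lemma Di_D (he : e ∈ IsManifold.maximalAtlas 𝓘(ℂ, E) ω M) {x : M} (hx : x ∈ e.source) (v : E) :
    Di e (e x) (D e x v) = v := by
  have h := (mdiff_of_mem he).symm_comp_deriv hx
  exact congrArg (fun L : TangentSpace 𝓘(ℂ, E) x →L[ℂ] TangentSpace 𝓘(ℂ, E) x => L v) h

omit [IsManifold 𝓘(ℂ, E) ω M] in
lemma D_Di (he : e ∈ IsManifold.maximalAtlas 𝓘(ℂ, E) ω M) {y : E} (hy : y ∈ e.target) (v : E) :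
    D e (e.symm y) (Di e y v) = v := by
  have h := (mdiff_of_mem he).comp_symm_deriv hy
  exact congrArg (fun L : TangentSpace 𝓘(ℂ, E) y →L[ℂ] TangentSpace 𝓘(ℂ, E) y => L v) h

omit [IsManifold 𝓘(ℂ, E) ω M] in
lemma ev_eq_inChart (he : e ∈ IsManifold.maximalAtlas 𝓘(ℂ, E) ω M) {x : M} (hx : x ∈ e.source)
    (θ : SesqField E M) (v w : E) :
    ev θ x v w = inChart e θ (D e x v) (D e x w) (e x) := by
  rw [inChart_ev, Di_D he hx, Di_D he hx, e.left_inv hx]

omit [IsManifold 𝓘(ℂ, E) ω M] in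
/-- chain rule for a change of charts -/
lemma fderiv_coord (he : e ∈ IsManifold.maximalAtlas 𝓘(ℂ, E) ω M)
    (he' : e' ∈ IsManifold.maximalAtlas 𝓘(ℂ, E) ω M) {z : E} (hz : z ∈ e'.target)
    (hz' : e'.symm z ∈ e.source) (a : E) :
    fderiv ℂ (e ∘ e'.symm) z a = D e (e'.symm z) (Di e' z a) := by
  have h1 : MDifferentiableAt 𝓘(ℂ, E) 𝓘(ℂ, E) e'.symm z := (mdiff_of_mem he').mdifferentiableAt_symm hz
  have h2 : MDifferentiableAt 𝓘(ℂ, E) 𝓘(ℂ, E) e (e'.symm z) := (mdiff_of_mem he).mdifferentiableAt hz'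
  have h3 := mfderiv_comp z h2 h1
  rw [mfderiv_eq_fderiv] at h3
  exact congrArg (fun L : E →L[ℂ] E => L a) h3

omit [IsManifold 𝓘(ℂ, E) ω M] in
lemma inChart_change (he : e ∈ IsManifold.maximalAtlas 𝓘(ℂ, E) ω M)
    (he' : e' ∈ IsManifold.maximalAtlas 𝓘(ℂ, E) ω M) (θ : SesqField E M) {z : E}
    (hz : z ∈ e'.target) (hz' : e'.symm z ∈ e.source) (a b : E) :
    inChart e' θ a b z = inChart e θ (fderiv ℂ (e ∘ e'.symm) z a) (fderiv ℂ (e ∘ e'.symm) z b)
      ((e ∘ e'.symm) z) := by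
  rw [fderiv_coord he he' hz hz', fderiv_coord he he' hz hz', Function.comp_apply,
    ← ev_eq_inChart he hz', inChart_ev]

end charts

section smooth

lemma inChart_add_left (e : OpenPartialHomeomorph M E) (θ : SesqField E M) (v v' w y : E) :
    inChart e θ (v + v') w y = inChart e θ v w y + inChart e θ v' w y := by
  rw [inChart_ev, map_add, ev_add_left]; rfl

lemma inChart_smul_left (e : OpenPartialHomeomorph M E) (θ : SesqField E M) (c : ℂ) (v w y : E) :
    inChart e θ (c • v) w y = c * inChart e θ v w y := by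
  rw [inChart_ev, map_smul, ev_smul_left]; rfl

lemma inChart_smul_right (e : OpenPartialHomeomorph M E) (θ : SesqField E M) (c : ℂ) (v w y : E) :
    inChart e θ v (c • w) y = (starRingEnd ℂ) c * inChart e θ v w y := by
  rw [inChart_ev, map_smul, ev_smul_right]; rfl

variable [FiniteDimensional ℂ E]

/-- expansion in a basis -/
lemma inChart_expand (e : OpenPartialHomeomorph M E) (θ : SesqField E M) (v w y : E) :
    inChart e θ v w y = ∑ j, ∑ k, ((Module.finBasis ℂ E).coord j v *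
      (starRingEnd ℂ) ((Module.finBasis ℂ E).coord k w)) *
        inChart e θ (Module.finBasis ℂ E j) (Module.finBasis ℂ E k) y := by
  set b := Module.finBasis ℂ E
  have hv : v = ∑ j, b.coord j v • b j := (b.sum_repr v).symm
  have hw : w = ∑ k, b.coord k w • b k := (b.sum_repr w).symm
  conv_lhs => rw [hv, hw]
  rw [inChart_ev, map_sum, map_sum, ev_sum_left]
  apply Finset.sum_congr rfl
  intro j _
  rw [ev_sum_right]
  apply Finset.sum_congr rfl
  intro k _
  rw [map_smul, map_smul, ev_smul_left, ev_smul_right, inChart_ev]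
  ring

/-- coordinates of smooth maps are smooth -/
lemma coord_contDiffAt {V : E → E} {y : E} (hV : ContDiffAt ℝ ∞ V y) (j) :
    ContDiffAt ℝ ∞ (fun z => (Module.finBasis ℂ E).coord j (V z)) y := by
  have h : ContDiff ℝ ∞ (fun v : E => (Module.finBasis ℂ E).coord j v) :=
    ((LinearMap.toContinuousLinearMap ((Module.finBasis ℂ E).coord j)).restrictScalars ℝ).contDiff
  exact h.contDiffAt.comp y hV

lemma conj_contDiff : ContDiff ℝ ∞ (fun z : ℂ => (starRingEnd ℂ) z) :=
  Complex.conjCLE.toContinuousLinearMap.contDiff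

/-- a form whose coefficients are smooth at `y`, evaluated on smooth vector fields -/
lemma inChart_contDiffAt {e : OpenPartialHomeomorph M E} {θ : SesqField E M} {y : E}
    (h : ∀ a b : E, ContDiffAt ℝ ∞ (inChart e θ a b) y) {V W : E → E} (hV : ContDiffAt ℝ ∞ V y)
    (hW : ContDiffAt ℝ ∞ W y) : ContDiffAt ℝ ∞ (fun z => inChart e θ (V z) (W z) z) y := by
  have h1 : (fun z => inChart e θ (V z) (W z) z) = fun z => ∑ j, ∑ k,
      ((Module.finBasis ℂ E).coord j (V z) *
      (starRingEnd ℂ) ((Module.finBasis ℂ E).coord k (W z))) *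
        inChart e θ (Module.finBasis ℂ E j) (Module.finBasis ℂ E k) z := by
    funext z
    exact inChart_expand e θ (V z) (W z) z
  rw [h1]
  apply ContDiffAt.sum
  intro j _
  apply ContDiffAt.sum
  intro k _
  exact ((coord_contDiffAt hV j).mul (conj_contDiff.contDiffAt.comp y (coord_contDiffAt hW k))).mul
    (h _ _)

omit [FiniteDimensional ℂ E] in
lemma form_contDiffAt (θ : Form11 E M) {e : OpenPartialHomeomorph M E}
    (he : e ∈ IsManifold.maximalAtlas 𝓘(ℂ, E) ω M) {y : E} (hy : y ∈ e.target) (a b : E) :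
    ContDiffAt ℝ ∞ (inChart e θ.1 a b) y :=
  (θ.2 e he a b).contDiffAt (e.open_target.mem_nhds hy)

/-- criterion for smoothness of a form -/
lemma mem_Form11_of [IsManifold 𝓘(ℂ, E) ω M] {θ : SesqField E M}
    (h : ∀ x : M, ∃ e ∈ IsManifold.maximalAtlas 𝓘(ℂ, E) ω M, x ∈ e.source ∧
      ∀ a b : E, ContDiffAt ℝ ∞ (inChart e θ a b) (e x)) : θ ∈ Form11 E M := by
  intro e' he' a b z hz
  apply ContDiffAt.contDiffWithinAt
  obtain ⟨e, he, hx, hs⟩ := h (e'.symm z)
  have hG : ContDiffAt ℂ ω (e ∘ e'.symm) z := contDiffAt_coord he' he hz hx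
  have hGr : ContDiffAt ℝ ∞ (e ∘ e'.symm) z := (hG.restrict_scalars ℝ).of_le le_top
  have hder : ∀ a : E, ContDiffAt ℝ ∞ (fun z => fderiv ℂ (e ∘ e'.symm) z a) z := by
    intro a
    have h1 : ContDiffAt ℂ ω (fderiv ℂ (e ∘ e'.symm)) z := hG.fderiv_right (by simp)
    have h2 : ContDiffAt ℂ ω (fun z => fderiv ℂ (e ∘ e'.symm) z a) z :=
      h1.clm_apply contDiffAt_const
    exact (h2.restrict_scalars ℝ).of_le le_top
  have hev : inChart e' θ a b =ᶠ[𝓝 z] fun z => inChart e θ (fderiv ℂ (e ∘ e'.symm) z a)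
      (fderiv ℂ (e ∘ e'.symm) z b) ((e ∘ e'.symm) z) := by
    filter_upwards [e'.open_target.mem_nhds hz,
      (e'.continuousAt_symm hz).preimage_mem_nhds (e.open_source.mem_nhds hx)] with y hy hy'
    exact inChart_change he he' θ hy hy' a b
  refine ContDiffAt.congr_of_eventuallyEq ?_ hev
  have h1 : (fun z => inChart e θ (fderiv ℂ (e ∘ e'.symm) z a)
      (fderiv ℂ (e ∘ e'.symm) z b) ((e ∘ e'.symm) z)) = fun z => ∑ j, ∑ k,
      ((Module.finBasis ℂ E).coord j (fderiv ℂ (e ∘ e'.symm) z a) *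
      (starRingEnd ℂ) ((Module.finBasis ℂ E).coord k (fderiv ℂ (e ∘ e'.symm) z b))) *
        inChart e θ (Module.finBasis ℂ E j) (Module.finBasis ℂ E k) ((e ∘ e'.symm) z) := by
    funext z
    exact inChart_expand e θ _ _ _
  rw [h1]
  apply ContDiffAt.sum
  intro j _
  apply ContDiffAt.sum
  intro k _
  refine ((coord_contDiffAt (hder a) j).mul
    (conj_contDiff.contDiffAt.comp z (coord_contDiffAt (hder b) k))).mul ?_
  exact ContDiffAt.comp z (hs _ _) hGr

end smooth

end Pool.Agent.H95.Nev
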