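import Pool.Agent.H95.Nev.Cur

/-!
# Extremality gives ergodicity
-/

open MeasureTheory Set Metric Filter Topology
open scoped ContDiff Manifold

namespace Pool.Agent.H95.Nev
open Pool.Agent.H45.Nev

variable {E : Type*} [NormedAddCommGroup E] [NormedSpace ℂ E]
  {M : Type*} [TopologicalSpace M] [ChartedSpace E M]
  {F : SingFoliation E M} {κ : Form11 E M}

lemma dens_sing {θ : Form11 E M} {x : M} (hx : x ∈ F.sing) : dens F κ θ x = 0 := by
  unfold dens
  rw [if_pos hx]

lemma dens_add (θ η : Form11 E M) (x : M) :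
    dens F κ (θ + η) x = dens F κ θ x + dens F κ η x := by
  by_cases hx : x ∈ F.sing
  · simp [dens_sing hx]
  · rw [dens_def hx, dens_def hx, dens_def hx, ← add_div]
    rfl

lemma dens_smul (c : ℂ) (θ : Form11 E M) (x : M) :
    dens F κ (c • θ) x = c * dens F κ θ x := by
  by_cases hx : x ∈ F.sing
  · simp [dens_sing hx]
  · rw [dens_def hx, dens_def hx, ← mul_div_assoc]
    rfl

lemma dens_nonneg (hκ : IsHermitianMetric κ) {θ : Form11 E M} (hθ : IsNonneg θ) (x : M) :
    0 ≤ (dens F κ θ x).re ∧ (dens F κ θ x).im = 0 := by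
  by_cases hx : x ∈ F.sing
  · simp [dens_sing hx]
  · rw [dens_def hx]
    have h2 : 0 ≤ (ev θ.1 x (gn F x) (gn F x)).re ∧ (ev θ.1 x (gn F x) (gn F x)).im = 0 :=
      hθ x (F.gen x)
    have hp := metric_pos hκ (x := x) (gen_ne_zero hx)
    rw [metric_eq hκ (gn F x), Complex.div_ofReal_re, Complex.div_ofReal_im, h2.2]
    exact ⟨div_nonneg h2.1 hp.le, by simp⟩

lemma dens_directed {θ : Form11 E M}
    (hθ : ∀ x ∉ F.sing, ∀ v w, F.Tangent x v → θ.1 x v w = 0) (x : M) : dens F κ θ x = 0 := by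
  by_cases hx : x ∈ F.sing
  · exact dens_sing hx
  · rw [dens_def hx]
    have h1 : ev θ.1 x (gn F x) (gn F x) = 0 := by
      apply hθ x hx
      have := gen_tangent F x 1
      rwa [one_smul] at this
    rw [h1, zero_div]

section
variable [IsManifold 𝓘(ℂ, E) ω M]

lemma dens_ddc (hκ : IsHermitianMetric κ) {u : M → ℝ} (hu : IsSmooth E u) {θ : Form11 E M}
    (h : IsDdc u θ) (x : M) : (dens F κ θ x).im = 0 := by
  by_cases hx : x ∈ F.sing
  · simp [dens_sing hx]
  · rw [dens_def hx, metric_eq hκ (gn F x), Complex.div_ofReal_im]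
    have he : chartAt E x ∈ IsManifold.maximalAtlas 𝓘(ℂ, E) ω M := chartAt_mem_max x
    have hxs : x ∈ (chartAt E x).source := mem_chart_source E x
    have hy := (chartAt E x).map_source hxs
    rw [ev_eq_inChart he hxs, h _ he _ hy]
    have hs : ContDiffAt ℝ 2 (u ∘ (chartAt E x).symm) (chartAt E x x) :=
      (hu.contDiffAt_symm he hy).of_le (WithTop.coe_le_coe.mpr le_top)
    have hA := levA_self hs (D (chartAt E x) x (gn F x))
    unfold levA at hA
    rw [hA]
    have : (1 / (2 * (Real.pi : ℂ))) = ((1 / (2 * Real.pi) : ℝ) : ℂ) := by push_cast; ring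
    rw [this, Complex.im_ofReal_mul]
    simp

variable [FiniteDimensional ℂ E] [CompactSpace M] [T2Space M] [MeasurableSpace M] [BorelSpace M]
  {μ : Measure M} [IsFiniteMeasure μ]

/-- weighted integrability -/
lemma wint (hκ : IsHermitianMetric κ) {a : M → ℝ} (ha : Measurable a) {A : ℝ}
    (hA : ∀ x, |a x| ≤ A) (θ : Form11 E M) :
    Integrable (fun x => (a x : ℂ) * dens F κ θ x) μ := by
  obtain ⟨hm, C, hC⟩ := dens_meas F κ hκ θ
  apply Integrable.of_bound ((Complex.measurable_ofReal.comp ha).mul hm).aestronglyMeasurable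
    (A * C)
  refine ae_of_all _ fun x => ?_
  show ‖(a x : ℂ) * dens F κ θ x‖ ≤ A * C
  rw [norm_mul, Complex.norm_real, Real.norm_eq_abs]
  exact mul_le_mul (hA x) (hC x) (norm_nonneg _) ((abs_nonneg _).trans (hA x))

/-- weighted current -/
noncomputable def wT (F : SingFoliation E M) (hκ : IsHermitianMetric κ) (μ : Measure M)
    [IsFiniteMeasure μ] {a : M → ℝ} (ha : Measurable a) {A : ℝ} (hA : ∀ x, |a x| ≤ A) :
    Form11 E M →ₗ[ℂ] ℂ where
  toFun θ := ∫ x, (a x : ℂ) * dens F κ θ x ∂μ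
  map_add' θ η := by
    rw [← integral_add (wint hκ ha hA θ) (wint hκ ha hA η)]
    congr 1
    funext x
    rw [dens_add]
    ring
  map_smul' c θ := by
    simp only [RingHom.id_apply, smul_eq_mul]
    rw [← integral_const_mul]
    congr 1
    funext x
    rw [dens_smul]
    ring

lemma wT_real (hκ : IsHermitianMetric κ) {a : M → ℝ} (ha : Measurable a) {A : ℝ}
    (hA : ∀ x, |a x| ≤ A) {θ : Form11 E M} (hθ : ∀ x, (dens F κ θ x).im = 0) :
    wT F hκ μ ha hA θ = ((∫ x, a x * (dens F κ θ x).re ∂μ : ℝ) : ℂ) := by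
  have h1 : wT F hκ μ ha hA θ = ∫ x, ((a x * (dens F κ θ x).re : ℝ) : ℂ) ∂μ := by
    show ∫ x, (a x : ℂ) * dens F κ θ x ∂μ = _
    congr 1
    funext x
    have : dens F κ θ x = ((dens F κ θ x).re : ℂ) := by
      apply Complex.ext
      · simp
      · simp [hθ x]
    conv_lhs => rw [this]
    push_cast
    ring
  rw [h1, integral_complex_ofReal]

lemma wT_harm (hκ : IsHermitianMetric κ) {a : M → ℝ} (ha : Measurable a) {A : ℝ}
    (hA : ∀ x, |a x| ≤ A) (ha0 : ∀ x, 0 ≤ a x)
    (h : ∀ u, IsSmooth E u → ∀ θ : Form11 E M, IsDdc u θ →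
      ∫ x, a x * (dens F κ θ x).re ∂μ = 0) : F.IsHarmonicCurrent (wT F hκ μ ha hA) := by
  refine ⟨?_, ?_, ?_⟩
  · intro θ hθ
    rw [wT_real hκ ha hA (fun x => (dens_nonneg hκ hθ x).2), Complex.ofReal_re, Complex.ofReal_im]
    exact ⟨integral_nonneg fun x => mul_nonneg (ha0 x) (dens_nonneg hκ hθ x).1, rfl⟩
  · intro u hu θ hθ
    rw [wT_real hκ ha hA (dens_ddc hκ hu hθ), h u hu θ hθ, Complex.ofReal_zero]
  · intro θ hθ
    show ∫ x, (a x : ℂ) * dens F κ θ x ∂μ = 0
    simp_rw [dens_directed hθ, mul_zero]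
    exact integral_zero _ _

/-- L. Extremality gives ergodicity. -/
theorem ergodic_of_extremal (F : SingFoliation E M) (κ : Form11 E M) (hκ : IsHermitianMetric κ)
    (μ : Measure M) [IsFiniteMeasure μ] (hμ : μ F.sing = 0)
    (T : Form11 E M →ₗ[ℂ] ℂ) (hT : F.IsExtremal T) (htr : IsTraceMeasure T κ μ)
    (γ : M → ℝ) (hγ : Measurable γ) (hb : ∃ C, ∀ x, |γ x| ≤ C)
    (h : ∀ u, IsSmooth E u → ∀ θ : Form11 E M, IsDdc u θ →
      ∫ x, γ x * (dens F κ θ x).re ∂μ = 0) :
    ∃ c : ℝ, γ =ᵐ[μ] fun _ => c := by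
  obtain ⟨C, hC⟩ := hb
  set B : ℝ := |C| + 1 with hB
  have hB0 : 0 < B := by positivity
  have hγB : ∀ x, |γ x| ≤ B := fun x => (hC x).trans ((le_abs_self C).trans (by linarith))
  have hcf : ∀ θ : Form11 E M, T θ = ∫ x, dens F κ θ x ∂μ := fun θ =>
    current_formula F κ hκ μ hμ T hT.1.1 hT.1.2.2 htr θ
  -- the real part of the integral against dd^c vanishes
  have h0 : ∀ u, IsSmooth E u → ∀ θ : Form11 E M, IsDdc u θ →
      ∫ x, (dens F κ θ x).re ∂μ = 0 := by
    intro u hu θ hθ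
    have h1 := hT.1.2.1 u hu θ hθ
    have h2 := wT_real (F := F) (μ := μ) hκ (a := fun _ => 1) measurable_const (A := 1)
      (fun _ => by simp) (dens_ddc hκ hu hθ)
    have h3 : wT F hκ μ (a := fun _ => 1) measurable_const (A := 1) (fun _ => by simp) θ =
        ∫ x, dens F κ θ x ∂μ := by
      show ∫ x, ((1 : ℝ) : ℂ) * dens F κ θ x ∂μ = _
      simp
    rw [h3, ← hcf, h1] at h2
    simp only [one_mul] at h2
    exact_mod_cast h2.symm
  have hre : ∀ θ : Form11 E M, Integrable (fun x => (dens F κ θ x).re) μ := by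
    intro θ
    have := (wint (F := F) (μ := μ) hκ (a := fun _ => 1) measurable_const (A := 1)
      (fun _ => by simp) θ).re
    simpa using this
  have hγre : ∀ θ : Form11 E M, Integrable (fun x => γ x * (dens F κ θ x).re) μ := by
    intro θ
    have := (wint (F := F) (μ := μ) hκ hγ hγB θ).re
    refine this.congr (ae_of_all _ fun x => ?_)
    simp only [RCLike.re_eq_complex_re]
    rw [Complex.re_ofReal_mul]
  set a₁ : M → ℝ := fun x => (1 + γ x / B) / 2 with ha₁
  set a₂ : M → ℝ := fun x => (1 - γ x / B) / 2 with ha₂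
  have hm₁ : Measurable a₁ := by
    have := hγ
    fun_prop
  have hm₂ : Measurable a₂ := by
    have := hγ
    fun_prop
  have hdiv : ∀ x, |γ x / B| ≤ 1 := by
    intro x
    rw [abs_div, abs_of_pos hB0, div_le_one hB0]
    exact hγB x
  have hb₁ : ∀ x, |a₁ x| ≤ 1 := by
    intro x
    have := abs_le.mp (hdiv x)
    rw [ha₁, abs_le]
    constructor <;> linarith [this.1, this.2]
  have hb₂ : ∀ x, |a₂ x| ≤ 1 := by
    intro x
    have := abs_le.mp (hdiv x)
    rw [ha₂, abs_le]
    constructor <;> linarith [this.1, this.2]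
  have hn₁ : ∀ x, 0 ≤ a₁ x := by
    intro x
    have := abs_le.mp (hdiv x)
    rw [ha₁]
    show 0 ≤ (1 + γ x / B) / 2
    linarith [this.1]
  have hn₂ : ∀ x, 0 ≤ a₂ x := by
    intro x
    have := abs_le.mp (hdiv x)
    rw [ha₂]
    show 0 ≤ (1 - γ x / B) / 2
    linarith [this.2]
  have hh₁ : F.IsHarmonicCurrent (wT F hκ μ hm₁ hb₁) := by
    apply wT_harm hκ hm₁ hb₁ hn₁
    intro u hu θ hθ
    have e1 : (fun x => a₁ x * (dens F κ θ x).re) = fun x => (1 / 2) * (dens F κ θ x).re +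
        (1 / (2 * B)) * (γ x * (dens F κ θ x).re) := by
      funext x
      rw [ha₁]
      field_simp
    rw [e1, integral_add ((hre θ).const_mul _) ((hγre θ).const_mul _), integral_const_mul,
      integral_const_mul, h0 u hu θ hθ, h u hu θ hθ]
    simp
  have hh₂ : F.IsHarmonicCurrent (wT F hκ μ hm₂ hb₂) := by
    apply wT_harm hκ hm₂ hb₂ hn₂
    intro u hu θ hθ
    have e1 : (fun x => a₂ x * (dens F κ θ x).re) = fun x => (1 / 2) * (dens F κ θ x).re -
        (1 / (2 * B)) * (γ x * (dens F κ θ x).re) := by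
      funext x
      rw [ha₂]
      field_simp
    rw [e1, integral_sub ((hre θ).const_mul _) ((hγre θ).const_mul _), integral_const_mul,
      integral_const_mul, h0 u hu θ hθ, h u hu θ hθ]
    simp
  have hsum : T = wT F hκ μ hm₁ hb₁ + wT F hκ μ hm₂ hb₂ := by
    apply LinearMap.ext
    intro θ
    rw [hcf θ]
    show _ = (∫ x, (a₁ x : ℂ) * dens F κ θ x ∂μ) + ∫ x, (a₂ x : ℂ) * dens F κ θ x ∂μ
    rw [← integral_add (wint hκ hm₁ hb₁ θ) (wint hκ hm₂ hb₂ θ)]
    congr 1
    funext x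
    have : (a₁ x : ℂ) + (a₂ x : ℂ) = 1 := by
      rw [← Complex.ofReal_add, ha₁, ha₂]
      norm_cast
      ring
    linear_combination (-dens F κ θ x) * this
  obtain ⟨c, hc⟩ := hT.2 _ _ hh₁ hh₂ hsum
  refine ⟨B * (2 * c - 1), ?_⟩
  have hreal := isManifold_real (E := E) (M := M)
  have : FiniteDimensional ℝ E := FiniteDimensional.complexToReal E
  have hli : LocallyIntegrable (fun x => a₁ x - c) μ := by
    apply Integrable.locallyIntegrable
    apply Integrable.of_bound (hm₁.sub_const c).aestronglyMeasurable (1 + |c|)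
    refine ae_of_all _ fun x => ?_
    rw [Real.norm_eq_abs]
    exact (abs_sub _ _).trans (add_le_add (hb₁ x) le_rfl)
  have hz := ae_eq_zero_of_integral_contMDiff_smul_eq_zero 𝓘(ℝ, E) hli (fun f hf _ => by
    have hf' : IsSmooth E f := hf
    have h1 := congrArg (fun S : Form11 E M →ₗ[ℂ] ℂ => S (mulF f hf' κ)) hc
    simp only [LinearMap.smul_apply, smul_eq_mul] at h1
    have hd : ∀ x, x ∉ F.sing → dens F κ (mulF f hf' κ) x = f x := by
      intro x hx
      rw [dens_def hx, mulF_ev, mul_div_assoc, div_self (metric_ne hκ (gen_ne_zero hx)), mul_one]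
    have hae : ∀ᵐ x ∂μ, x ∉ F.sing := by
      rw [ae_iff]
      simpa using hμ
    have h2 : wT F hκ μ hm₁ hb₁ (mulF f hf' κ) = ((∫ x, a₁ x * f x ∂μ : ℝ) : ℂ) := by
      show ∫ x, (a₁ x : ℂ) * dens F κ (mulF f hf' κ) x ∂μ = _
      rw [← integral_complex_ofReal]
      apply integral_congr_ae
      filter_upwards [hae] with x hx
      rw [hd x hx]
      push_cast
      ring
    have h3 : T (mulF f hf' κ) = ((∫ x, f x ∂μ : ℝ) : ℂ) := htr f hf' _ (fun x v w => rfl)
    rw [h2, h3] at h1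
    have h4 : ∫ x, a₁ x * f x ∂μ = c * ∫ x, f x ∂μ := by exact_mod_cast h1
    have hfc : Continuous f := hf.continuous
    obtain ⟨K, hK⟩ := (isCompact_univ (X := M)).exists_bound_of_continuousOn hfc.continuousOn
    have hfi : Integrable f μ := Integrable.of_bound hfc.aestronglyMeasurable K
      (ae_of_all _ fun x => hK x (mem_univ x))
    have hafi : Integrable (fun x => a₁ x * f x) μ := by
      apply hfi.bdd_mul hm₁.aestronglyMeasurable (c := 1)
      exact ae_of_all _ fun x => hb₁ x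
    have h5 : (fun x => f x • (a₁ x - c)) = fun x => a₁ x * f x - c * f x := by
      funext x
      rw [smul_eq_mul]
      ring
    rw [h5, integral_sub hafi (hfi.const_mul c), integral_const_mul, h4, sub_self])
  filter_upwards [hz] with x hx
  have h6 : (1 + γ x / B) / 2 = c := sub_eq_zero.mp hx
  have h7 : γ x = B * (γ x / B) := by field_simp
  rw [h7]
  congr 1
  linarith

end

end Pool.Agent.H95.Nev
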