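import Mathlib
import Pool.Agent.H45.Nev.Plane0

open MeasureTheory Set Metric Filter Topology
open scoped ContDiff

namespace Pool.Agent.H95.Nev

open Pool.Agent.H45.Nev

/-- pseudo-hyperbolic geometry -/
lemma geom {ξ ζ : ℂ} {s : ℝ} (hs0 : 0 < s) (hs1 : s < 1) (hξ : ‖ξ‖ = s) (hζ : ‖ζ‖ < 1)
    (h : ‖ζ - ξ‖ ≤ 1 / 2 * ‖1 - (starRingEnd ℂ) ξ * ζ‖) :
    ‖ζ‖ ≤ 1 - (1 - s) / 3 ∧ ‖ζ - ξ‖ ≤ 2 * (1 - s) := by
  set w : ℝ := ‖1 - (starRingEnd ℂ) ξ * ζ‖ with hw
  set r : ℝ := ‖ζ‖ with hr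
  have hr0 : 0 ≤ r := norm_nonneg _
  have hw0 : 0 ≤ w := norm_nonneg _
  have hd0 : 0 ≤ ‖ζ - ξ‖ := norm_nonneg _
  have hid : w ^ 2 - ‖ζ - ξ‖ ^ 2 = (1 - s ^ 2) * (1 - r ^ 2) := by
    rw [hw, hr, ← hξ, ← Complex.normSq_eq_norm_sq, ← Complex.normSq_eq_norm_sq,
      ← Complex.normSq_eq_norm_sq, ← Complex.normSq_eq_norm_sq]
    simp only [Complex.normSq_apply, Complex.sub_re, Complex.sub_im, Complex.one_re,
      Complex.one_im, Complex.mul_re, Complex.mul_im, Complex.conj_re, Complex.conj_im]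
    ring
  have hw1 : 1 - s * r ≤ w := by
    have h1 : ‖(1 : ℂ)‖ - ‖(starRingEnd ℂ) ξ * ζ‖ ≤ w := norm_sub_norm_le _ _
    rw [norm_one, norm_mul, Complex.norm_conj, hξ] at h1
    exact h1
  have hsr : 0 ≤ 1 - s * r := by nlinarith
  have h2 : ‖ζ - ξ‖ ^ 2 ≤ 1 / 4 * w ^ 2 := by
    have := pow_le_pow_left₀ hd0 h 2
    rw [mul_pow] at this
    linarith
  have h3 : 3 / 4 * w ^ 2 ≤ (1 - s ^ 2) * (1 - r ^ 2) := by linarith
  have h4 : (1 - s * r) ^ 2 ≤ w ^ 2 := pow_le_pow_left₀ hsr hw1 2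
  have h5 : (s - r) ^ 2 ≤ 1 / 4 * (1 - s * r) ^ 2 := by nlinarith
  have h6 : |s - r| ≤ 1 / 2 * (1 - s * r) := by
    apply abs_le_of_sq_le_sq _ (by linarith)
    rw [mul_pow]; linarith
  obtain ⟨h7, h8⟩ := abs_le.1 h6
  have hb1 : 1 - s ≤ 3 * (1 - r) := by nlinarith
  have hb2 : 1 - r ≤ 3 * (1 - s) := by nlinarith
  refine ⟨by linarith, ?_⟩
  have h9 : w ^ 2 ≤ (4 * (1 - s)) ^ 2 := by
    have h10 : (1 - s ^ 2) * (1 - r ^ 2) ≤ 4 * ((1 - s) * (1 - r)) := by
      have e1 : 0 ≤ (1 - s) * (1 - r) := by nlinarith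
      have e2 : (1 - s ^ 2) * (1 - r ^ 2) = ((1 - s) * (1 - r)) * ((1 + s) * (1 + r)) := by ring
      have e3 : (1 + s) * (1 + r) ≤ 4 := by nlinarith
      rw [e2]
      nlinarith
    nlinarith
  have h11 : w ≤ 4 * (1 - s) := le_of_sq_le_sq h9 (by linarith)
  linarith

lemma norm_circle_sub {s θ φ : ℝ} (hs : 0 ≤ s) :
    ‖circleMap 0 s θ - circleMap 0 s φ‖ = 2 * s * |Real.sin ((θ - φ) / 2)| := by
  have h1 : circleMap 0 s θ - circleMap 0 s φ =
      s * (Complex.exp (φ * Complex.I) * (Complex.exp ((θ - φ : ℝ) * Complex.I) - 1)) := by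
    simp only [circleMap, zero_add]
    rw [mul_sub, mul_one, ← Complex.exp_add]
    push_cast
    ring_nf
  rw [h1, norm_mul, norm_mul, Complex.norm_exp_ofReal_mul_I, one_mul, Complex.norm_real,
    Real.norm_of_nonneg hs]
  have h2 : ‖Complex.exp ((θ - φ : ℝ) * Complex.I) - 1‖ = 2 * |Real.sin ((θ - φ) / 2)| := by
    have := Complex.norm_exp_I_mul_ofReal_sub_one (θ - φ)
    rw [mul_comm] at this
    rw [this, Real.norm_eq_abs, abs_mul, abs_of_pos (by norm_num : (0 : ℝ) < 2)]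
  rw [h2]; ring

lemma circle_measure {ζ : ℂ} {s : ℝ} (hs : 1 / 2 ≤ s) (hs1 : s < 1) :
    volume {θ : ℝ | θ ∈ Ioo (0 : ℝ) (2 * Real.pi) ∧ ‖ζ - circleMap 0 s θ‖ ≤ 2 * (1 - s)} ≤
      ENNReal.ofReal (16 * Real.pi * (1 - s)) := by
  set E := {θ : ℝ | θ ∈ Ioo (0 : ℝ) (2 * Real.pi) ∧ ‖ζ - circleMap 0 s θ‖ ≤ 2 * (1 - s)} with hE
  rcases E.eq_empty_or_nonempty with h0 | ⟨φ, hφ1, hφ2⟩
  · rw [h0]; simp
  set δ : ℝ := 4 * Real.pi * (1 - s) with hδ
  have hπ := Real.pi_pos
  have hδ0 : 0 ≤ δ := by rw [hδ]; have : 0 ≤ 1 - s := by linarith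
                         positivity
  have hsub : E ⊆ Icc (φ - δ) (φ + δ) ∪ Icc (2 * Real.pi - δ) (2 * Real.pi) ∪ Icc 0 δ := by
    rintro θ ⟨hθ1, hθ2⟩
    have h1 : ‖circleMap 0 s θ - circleMap 0 s φ‖ ≤ 4 * (1 - s) := by
      calc ‖circleMap 0 s θ - circleMap 0 s φ‖ =
            ‖(ζ - circleMap 0 s φ) - (ζ - circleMap 0 s θ)‖ := by congr 1; ring
        _ ≤ ‖ζ - circleMap 0 s φ‖ + ‖ζ - circleMap 0 s θ‖ := norm_sub_le _ _
        _ ≤ _ := by linarith
    rw [norm_circle_sub (by linarith)] at h1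
    have h2 : |Real.sin ((θ - φ) / 2)| ≤ 4 * (1 - s) := by
      have h3 : 0 ≤ |Real.sin ((θ - φ) / 2)| := abs_nonneg _
      nlinarith
    set x := (θ - φ) / 2 with hx
    have hxl : -Real.pi < x := by rw [hx]; linarith [hθ1.1, hφ1.2]
    have hxu : x < Real.pi := by rw [hx]; linarith [hθ1.2, hφ1.1]
    by_cases hc : |x| ≤ Real.pi / 2
    · have h4 : 2 / Real.pi * |x| ≤ |Real.sin x| := by
        have h5 := Real.mul_le_sin (abs_nonneg x) hc
        rcases abs_cases x with ⟨e1, e2⟩ | ⟨e1, e2⟩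
        · rw [e1] at h5 ⊢
          exact h5.trans (le_abs_self _)
        · rw [e1] at h5 ⊢
          rw [Real.sin_neg] at h5
          exact h5.trans (neg_le_abs _)
      have h6 : |x| ≤ δ / 2 := by
        have h7 : 2 / Real.pi * |x| ≤ 4 * (1 - s) := h4.trans h2
        rw [div_mul_eq_mul_div, div_le_iff₀ hπ] at h7
        rw [hδ]; linarith
      obtain ⟨h8, h9⟩ := abs_le.1 h6
      left; left
      constructor <;> linarith
    · push Not at hc
      have h4 : 2 / Real.pi * (Real.pi - |x|) ≤ |Real.sin x| := by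
        have hxa : |x| < Real.pi := abs_lt.2 ⟨hxl, hxu⟩
        have h5 := Real.mul_le_sin (x := Real.pi - |x|) (by linarith) (by linarith)
        rw [Real.sin_pi_sub] at h5
        rcases abs_cases x with ⟨e1, e2⟩ | ⟨e1, e2⟩
        · rw [e1] at h5 ⊢
          exact h5.trans (le_abs_self _)
        · rw [e1] at h5 ⊢
          rw [Real.sin_neg] at h5
          exact h5.trans (neg_le_abs _)
      have h6 : Real.pi - |x| ≤ δ / 2 := by
        have h7 : 2 / Real.pi * (Real.pi - |x|) ≤ 4 * (1 - s) := h4.trans h2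
        rw [div_mul_eq_mul_div, div_le_iff₀ hπ] at h7
        rw [hδ]; linarith
      rcases abs_cases x with ⟨e1, e2⟩ | ⟨e1, e2⟩
      · rw [e1] at h6
        left; right
        constructor
        · linarith [hφ1.1]
        · linarith [hθ1.2]
      · rw [e1] at h6
        right
        constructor
        · linarith [hθ1.1]
        · linarith [hφ1.2]
  calc volume E ≤ volume (Icc (φ - δ) (φ + δ) ∪ Icc (2 * Real.pi - δ) (2 * Real.pi) ∪ Icc 0 δ) :=
        measure_mono hsub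
    _ ≤ volume (Icc (φ - δ) (φ + δ)) + volume (Icc (2 * Real.pi - δ) (2 * Real.pi)) +
        volume (Icc 0 δ) := (measure_union_le _ _).trans (add_le_add_left (measure_union_le _ _) _)
    _ = ENNReal.ofReal (2 * δ) + ENNReal.ofReal δ + ENNReal.ofReal δ := by
        rw [Real.volume_Icc, Real.volume_Icc, Real.volume_Icc]
        congr 2 <;> (try congr 1) <;> ring_nf
    _ = ENNReal.ofReal (16 * Real.pi * (1 - s)) := by
        rw [← ENNReal.ofReal_add (by linarith) hδ0, ← ENNReal.ofReal_add (by linarith) hδ0]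
        congr 1; rw [hδ]; ring

/-- the averaged form of the hypothesis -/
lemma averaged (σ : ℂ → ℝ) (hσc : ContinuousOn σ (ball 0 1))
    (B : Set ℂ) (hB : MeasurableSet B) (c : ℝ) (hc : 0 < c)
    (h1 : ∀ ξ ∈ ball (0 : ℂ) 1 ∩ B, ENNReal.ofReal c ≤
      ∫⁻ ζ in ball (0 : ℂ) 1 ∩ {ζ | ‖ζ - ξ‖ ≤ 1 / 2 * ‖1 - (starRingEnd ℂ) ξ * ζ‖},
        ENNReal.ofReal (σ ζ)) {s : ℝ} (hs : 1 / 2 ≤ s) (hs1 : s < 1)
    (h2 : ENNReal.ofReal Real.pi ≤
      volume (Ioo (0 : ℝ) (2 * Real.pi) ∩ {θ | circleMap 0 s θ ∈ B})) :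
    ENNReal.ofReal c * ENNReal.ofReal Real.pi ≤ ENNReal.ofReal (16 * Real.pi * (1 - s)) *
      ∫⁻ ζ in closedBall (0 : ℂ) (1 - (1 - s) / 3), ENNReal.ofReal (σ ζ) := by
  classical
  set τ : ℂ → ENNReal := (ball (0 : ℂ) 1).indicator (fun z => ENNReal.ofReal (σ z)) with hτ
  have hτm : Measurable τ := by
    rw [hτ]
    have h3 : ContinuousOn (fun z => ENNReal.ofReal (σ z)) (ball (0 : ℂ) 1) :=
      ENNReal.continuous_ofReal.comp_continuousOn hσc
    rw [← Set.piecewise_eq_indicator]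
    exact h3.measurable_piecewise continuousOn_const measurableSet_ball
  set P : Set (ℝ × ℂ) := {q | ‖q.2 - circleMap 0 s q.1‖ ≤
    1 / 2 * ‖1 - (starRingEnd ℂ) (circleMap 0 s q.1) * q.2‖} with hP
  have hPm : MeasurableSet P := by
    apply IsClosed.measurableSet
    apply isClosed_le
    · exact (continuous_snd.sub ((continuous_circleMap 0 s).comp continuous_fst)).norm
    · exact continuous_const.mul (continuous_const.sub
        ((Complex.continuous_conj.comp ((continuous_circleMap 0 s).comp continuous_fst)).mul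
          continuous_snd)).norm
  set T : Set ℝ := Ioo (0 : ℝ) (2 * Real.pi) ∩ {θ | circleMap 0 s θ ∈ B} with hT
  have hTm : MeasurableSet T := measurableSet_Ioo.inter ((continuous_circleMap 0 s).measurable hB)
  have hs0 : 0 < s := by linarith
  have hcirc : ∀ θ : ℝ, ‖circleMap 0 s θ‖ = s := by
    intro θ; rw [norm_circleMap_zero, abs_of_pos hs0]
  have e1 : ENNReal.ofReal c * ENNReal.ofReal Real.pi ≤
      ∫⁻ θ in T, ∫⁻ ζ, P.indicator (fun q => τ q.2) (θ, ζ) := by
    calc ENNReal.ofReal c * ENNReal.ofReal Real.pi ≤ ENNReal.ofReal c * volume T := by gcongr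
      _ = ∫⁻ _ in T, ENNReal.ofReal c := by rw [setLIntegral_const]
      _ ≤ _ := by
          apply setLIntegral_mono' hTm
          intro θ hθ
          have h3 := h1 (circleMap 0 s θ) ⟨by rw [mem_ball_zero_iff, hcirc]; exact hs1, hθ.2⟩
          refine h3.trans (le_of_eq ?_)
          have hmm : MeasurableSet (ball (0 : ℂ) 1 ∩ {ζ | ‖ζ - circleMap 0 s θ‖ ≤
              1 / 2 * ‖1 - (starRingEnd ℂ) (circleMap 0 s θ) * ζ‖}) :=
            measurableSet_ball.inter (measurable_prodMk_left hPm)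
          rw [← lintegral_indicator hmm]
          apply lintegral_congr
          intro ζ
          by_cases hz1 : ζ ∈ ball (0 : ℂ) 1
          · by_cases hz2 : (θ, ζ) ∈ P
            · rw [Set.indicator_of_mem (show ζ ∈ ball (0 : ℂ) 1 ∩ _ from ⟨hz1, hz2⟩),
                Set.indicator_of_mem hz2, hτ, Set.indicator_of_mem hz1]
            · rw [Set.indicator_of_notMem (fun h => hz2 h.2), Set.indicator_of_notMem hz2]
          · rw [Set.indicator_of_notMem (fun h => hz1 h.1)]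
            by_cases hz2 : (θ, ζ) ∈ P
            · rw [Set.indicator_of_mem hz2, hτ, Set.indicator_of_notMem hz1]
            · rw [Set.indicator_of_notMem hz2]
  have e2 : ∫⁻ θ in T, ∫⁻ ζ, P.indicator (fun q => τ q.2) (θ, ζ) ≤
      ∫⁻ ζ, ∫⁻ θ in Ioo (0 : ℝ) (2 * Real.pi), P.indicator (fun q => τ q.2) (θ, ζ) := by
    calc ∫⁻ θ in T, ∫⁻ ζ, P.indicator (fun q => τ q.2) (θ, ζ) ≤
          ∫⁻ θ in Ioo (0 : ℝ) (2 * Real.pi), ∫⁻ ζ, P.indicator (fun q => τ q.2) (θ, ζ) :=
          lintegral_mono_set Set.inter_subset_left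
      _ = _ := by
          apply lintegral_lintegral_swap
          exact ((hτm.comp measurable_snd).indicator hPm).aemeasurable
  refine e1.trans (e2.trans ?_)
  rw [← lintegral_indicator measurableSet_closedBall,
    ← lintegral_const_mul' _ _ ENNReal.ofReal_ne_top]
  apply lintegral_mono
  intro ζ
  beta_reduce
  by_cases hz1 : ζ ∈ ball (0 : ℂ) 1
  swap
  · have h3 : ∀ θ : ℝ, P.indicator (fun q => τ q.2) (θ, ζ) = 0 := by
      intro θ
      by_cases hz2 : (θ, ζ) ∈ P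
      · rw [Set.indicator_of_mem hz2, hτ, Set.indicator_of_notMem hz1]
      · rw [Set.indicator_of_notMem hz2]
    simp only [h3, lintegral_const, zero_mul]
    exact bot_le
  have hζ1 : ‖ζ‖ < 1 := mem_ball_zero_iff.1 hz1
  by_cases hz3 : ζ ∈ closedBall (0 : ℂ) (1 - (1 - s) / 3)
  · rw [Set.indicator_of_mem hz3]
    have h3 : ∀ θ : ℝ, θ ∈ Ioo (0 : ℝ) (2 * Real.pi) →
        P.indicator (fun q => τ q.2) (θ, ζ) ≤
        {θ : ℝ | θ ∈ Ioo (0 : ℝ) (2 * Real.pi) ∧
          ‖ζ - circleMap 0 s θ‖ ≤ 2 * (1 - s)}.indicator (fun _ => ENNReal.ofReal (σ ζ)) θ := by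
      intro θ hθ
      by_cases hz2 : (θ, ζ) ∈ P
      · rw [Set.indicator_of_mem hz2, hτ, Set.indicator_of_mem hz1, Set.indicator_of_mem]
        exact ⟨hθ, (geom hs0 hs1 (hcirc θ) hζ1 hz2).2⟩
      · rw [Set.indicator_of_notMem hz2]; exact bot_le
    have hEm : MeasurableSet {θ : ℝ | θ ∈ Ioo (0 : ℝ) (2 * Real.pi) ∧
          ‖ζ - circleMap 0 s θ‖ ≤ 2 * (1 - s)} := by
      apply MeasurableSet.inter measurableSet_Ioo
      apply IsClosed.measurableSet
      exact isClosed_le (continuous_const.sub (continuous_circleMap 0 s)).norm continuous_const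
    calc ∫⁻ θ in Ioo (0 : ℝ) (2 * Real.pi), P.indicator (fun q => τ q.2) (θ, ζ)
        ≤ ∫⁻ θ in Ioo (0 : ℝ) (2 * Real.pi), {θ : ℝ | θ ∈ Ioo (0 : ℝ) (2 * Real.pi) ∧
          ‖ζ - circleMap 0 s θ‖ ≤ 2 * (1 - s)}.indicator (fun _ => ENNReal.ofReal (σ ζ)) θ :=
          setLIntegral_mono' measurableSet_Ioo h3
      _ ≤ ∫⁻ θ, {θ : ℝ | θ ∈ Ioo (0 : ℝ) (2 * Real.pi) ∧
          ‖ζ - circleMap 0 s θ‖ ≤ 2 * (1 - s)}.indicator (fun _ => ENNReal.ofReal (σ ζ)) θ :=
          setLIntegral_le_lintegral _ _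
      _ = ENNReal.ofReal (σ ζ) * volume {θ : ℝ | θ ∈ Ioo (0 : ℝ) (2 * Real.pi) ∧
          ‖ζ - circleMap 0 s θ‖ ≤ 2 * (1 - s)} := lintegral_indicator_const hEm _
      _ ≤ ENNReal.ofReal (σ ζ) * ENNReal.ofReal (16 * Real.pi * (1 - s)) := by
          gcongr
          exact circle_measure hs hs1
      _ = _ := mul_comm _ _
  · rw [Set.indicator_of_notMem hz3, mul_zero]
    have h3 : ∀ θ : ℝ, P.indicator (fun q => τ q.2) (θ, ζ) = 0 := by
      intro θ
      by_cases hz2 : (θ, ζ) ∈ P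
      · exact absurd (mem_closedBall_zero_iff.2 (geom hs0 hs1 (hcirc θ) hζ1 hz2).1) hz3
      · rw [Set.indicator_of_notMem hz2]
    simp only [h3, lintegral_const, zero_mul, le_refl]

/-- **D. Hyperbolic area lemma.** -/
theorem area_lemma (σ : ℂ → ℝ) (hσc : ContinuousOn σ (ball 0 1))
    (hσ0 : ∀ z ∈ ball (0 : ℂ) 1, 0 ≤ σ z) (B : Set ℂ) (hB : MeasurableSet B) (c : ℝ) (hc : 0 < c)
    (h1 : ∀ ξ ∈ ball (0 : ℂ) 1 ∩ B, ENNReal.ofReal c ≤
      ∫⁻ ζ in ball (0 : ℂ) 1 ∩ {ζ | ‖ζ - ξ‖ ≤ 1 / 2 * ‖1 - (starRingEnd ℂ) ξ * ζ‖},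
        ENNReal.ofReal (σ ζ))
    (h2 : ∀ s ∈ Ioo (0 : ℝ) 1,
      ENNReal.ofReal Real.pi ≤ volume (Ioo (0 : ℝ) (2 * Real.pi) ∩ {θ | circleMap 0 s θ ∈ B})) :
    ¬ ∃ C : ℝ, ∀ s ∈ Ioo (0 : ℝ) 1, nev σ s ≤ C := by
  rintro ⟨C, hC⟩
  have hπ := Real.pi_pos
  set S : ℝ → ENNReal := fun t => ∫⁻ ζ in ball (0 : ℂ) t, ENNReal.ofReal (σ ζ) with hS
  -- the real integral
  have hbd : ∀ s ∈ Ioo (0 : ℝ) 1, ∫⁻ t in Ioo (0 : ℝ) s, S t ≤ ENNReal.ofReal C := by
    intro s hs
    obtain ⟨M, hM⟩ : ∃ M, ∀ z ∈ closedBall (0 : ℂ) s, |σ z| ≤ M := by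
      have hcomp : IsCompact (closedBall (0 : ℂ) s) := isCompact_closedBall 0 s
      have hc2 : ContinuousOn σ (closedBall (0 : ℂ) s) :=
        hσc.mono (closedBall_subset_ball hs.2)
      obtain ⟨M, hM⟩ := hcomp.exists_bound_of_continuousOn hc2
      exact ⟨M, fun z hz => hM z hz⟩
    have hM0 : 0 ≤ M := (abs_nonneg _).trans (hM 0 (mem_closedBall_self hs.1.le))
    have hint : ∀ t ≤ s, IntegrableOn σ (ball (0 : ℂ) t) := by
      intro t ht
      exact ((hσc.mono (closedBall_subset_ball hs.2)).integrableOn_compact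
        (isCompact_closedBall 0 s)).mono_set ((ball_subset_ball ht).trans ball_subset_closedBall)
    have hSr : ∀ t ≤ s, S t = ENNReal.ofReal (∫ ζ in ball (0 : ℂ) t, σ ζ) := by
      intro t ht
      rw [ofReal_integral_eq_lintegral_ofReal (hint t ht)]
      rw [Filter.EventuallyLE, ae_restrict_iff' measurableSet_ball]
      exact Filter.Eventually.of_forall (fun z hz => hσ0 z (ball_subset_ball (by linarith [hs.2]) hz))
    have hnn : ∀ t ≤ s, 0 ≤ ∫ ζ in ball (0 : ℂ) t, σ ζ := by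
      intro t ht
      apply setIntegral_nonneg measurableSet_ball
      intro z hz
      exact hσ0 z (ball_subset_ball (by linarith [hs.2]) hz)
    have hmono : MonotoneOn (fun t => ∫ ζ in ball (0 : ℂ) t, σ ζ) (Ioo (0 : ℝ) s) := by
      intro a ha b hb hab
      apply setIntegral_mono_set (hint b hb.2.le)
      · rw [Filter.EventuallyLE, ae_restrict_iff' measurableSet_ball]
        exact Filter.Eventually.of_forall
          (fun z hz => hσ0 z (ball_subset_ball (by linarith [hs.2, hb.2]) hz))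
      · exact (ball_subset_ball hab).eventuallyLE
    have hmeas : AEStronglyMeasurable (fun t => (∫ ζ in ball (0 : ℂ) t, σ ζ) / t)
        (volume.restrict (Ioo (0 : ℝ) s)) := by
      apply AEMeasurable.aestronglyMeasurable
      exact (aemeasurable_restrict_of_monotoneOn measurableSet_Ioo hmono).div
        measurable_id.aemeasurable
    have hle : ∀ t ∈ Ioo (0 : ℝ) s, (∫ ζ in ball (0 : ℂ) t, σ ζ) / t ≤ M * Real.pi := by
      intro t ht
      have h3 : ∫ ζ in ball (0 : ℂ) t, σ ζ ≤ M * (Real.pi * t ^ 2) := by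
        calc ∫ ζ in ball (0 : ℂ) t, σ ζ ≤ ∫ _ζ in ball (0 : ℂ) t, M := by
              apply setIntegral_mono_on (hint t ht.2.le) (integrableOn_const (by
                exact measure_ball_lt_top.ne)) measurableSet_ball
              intro z hz
              exact (le_abs_self _).trans (hM z ((ball_subset_ball ht.2.le).trans
                ball_subset_closedBall hz))
          _ = M * (Real.pi * t ^ 2) := by
              rw [setIntegral_const, smul_eq_mul, mul_comm]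
              congr 1
              rw [Measure.real, Complex.volume_ball]
              simp [ht.1.le]
              ring
      rw [div_le_iff₀ ht.1]
      have : t ≤ 1 := by linarith [ht.2, hs.2]
      have ht0 := ht.1
      calc ∫ ζ in ball (0 : ℂ) t, σ ζ ≤ M * (Real.pi * t ^ 2) := h3
        _ ≤ M * Real.pi * t := by
          have : t ^ 2 ≤ t := by nlinarith
          have h4 : Real.pi * t ^ 2 ≤ Real.pi * t := mul_le_mul_of_nonneg_left this hπ.le
          have := mul_le_mul_of_nonneg_left h4 hM0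
          linarith
    have hintg : IntegrableOn (fun t => (∫ ζ in ball (0 : ℂ) t, σ ζ) / t) (Ioo (0 : ℝ) s) := by
      apply IntegrableOn.of_bound measure_Ioo_lt_top hmeas (M * Real.pi)
      rw [ae_restrict_iff' measurableSet_Ioo]
      refine Filter.Eventually.of_forall (fun t ht => ?_)
      rw [Real.norm_of_nonneg (div_nonneg (hnn t ht.2.le) ht.1.le)]
      exact hle t ht
    have h5 : ∫⁻ t in Ioo (0 : ℝ) s, S t ≤
        ∫⁻ t in Ioo (0 : ℝ) s, ENNReal.ofReal ((∫ ζ in ball (0 : ℂ) t, σ ζ) / t) := by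
      apply setLIntegral_mono' measurableSet_Ioo
      intro t ht
      rw [hSr t ht.2.le]
      apply ENNReal.ofReal_le_ofReal
      rw [le_div_iff₀ ht.1]
      have h6 := hnn t ht.2.le
      have : t ≤ 1 := by linarith [ht.2, hs.2]
      nlinarith [ht.1]
    refine h5.trans ?_
    rw [← ofReal_integral_eq_lintegral_ofReal hintg]
    · exact ENNReal.ofReal_le_ofReal (hC s hs)
    · rw [Filter.EventuallyLE, ae_restrict_iff' measurableSet_Ioo]
      exact Filter.Eventually.of_forall (fun t ht => div_nonneg (hnn t ht.2.le) ht.1.le)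
  -- the whole integral
  have hfin : ∫⁻ t in Ioo (0 : ℝ) 1, S t ≠ ⊤ := by
    have hun : Ioo (0 : ℝ) 1 = ⋃ n : ℕ, Ioo (0 : ℝ) (1 - 1 / ((n : ℝ) + 2)) := by
      ext t
      simp only [mem_iUnion, mem_Ioo]
      constructor
      · rintro ⟨ht0, ht1⟩
        obtain ⟨n, hn⟩ := exists_nat_gt (1 / (1 - t))
        refine ⟨n, ht0, ?_⟩
        have h3 : 0 < 1 - t := by linarith
        rw [div_lt_iff₀ h3] at hn
        have h4 : 1 / ((n : ℝ) + 2) < 1 - t := by
          rw [div_lt_iff₀ (by positivity)]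
          nlinarith
        linarith
      · rintro ⟨n, ht0, ht1⟩
        refine ⟨ht0, ht1.trans_le ?_⟩
        have : 0 < 1 / ((n : ℝ) + 2) := by positivity
        linarith
    have hm : Monotone (fun n : ℕ => Ioo (0 : ℝ) (1 - 1 / ((n : ℝ) + 2))) := by
      intro a b hab
      apply Ioo_subset_Ioo_right
      have h3 : (a : ℝ) ≤ b := by exact_mod_cast hab
      have h4 : 1 / ((b : ℝ) + 2) ≤ 1 / ((a : ℝ) + 2) :=
        one_div_le_one_div_of_le (by positivity) (by linarith)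
      linarith
    rw [hun, setLIntegral_iUnion_of_directed _ (hm.directed_le)]
    refine ne_top_of_le_ne_top (ENNReal.ofReal_ne_top (r := C)) (iSup_le (fun n => ?_))
    apply hbd
    constructor
    · have : 1 / ((n : ℝ) + 2) ≤ 1 / 2 := one_div_le_one_div_of_le (by norm_num) (by
        have : (0 : ℝ) ≤ n := by positivity
        linarith)
      linarith
    · have : 0 < 1 / ((n : ℝ) + 2) := by positivity
      linarith
  -- the tail bound
  have htail : ∀ s : ℝ, 1 / 2 ≤ s → s < 1 → ENNReal.ofReal (c / 48) ≤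
      ∫⁻ t in Ioo (1 - (1 - s) / 3) 1 ∩ Ioo (0 : ℝ) 1, S t := by
    intro s hs hs1
    have h3 := averaged σ hσc B hB c hc h1 hs hs1 (h2 s ⟨by linarith, hs1⟩)
    set I : ENNReal := ∫⁻ ζ in closedBall (0 : ℂ) (1 - (1 - s) / 3), ENNReal.ofReal (σ ζ) with hI
    have h4 : ENNReal.ofReal ((1 - s) / 3) * I ≤
        ∫⁻ t in Ioo (1 - (1 - s) / 3) 1 ∩ Ioo (0 : ℝ) 1, S t := by
      have hset : Ioo (1 - (1 - s) / 3) 1 ∩ Ioo (0 : ℝ) 1 = Ioo (1 - (1 - s) / 3) 1 := by
        apply Set.inter_eq_left.2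
        apply Ioo_subset_Ioo_left
        linarith
      rw [hset]
      calc ENNReal.ofReal ((1 - s) / 3) * I = ∫⁻ _ in Ioo (1 - (1 - s) / 3) 1, I := by
            rw [setLIntegral_const, Real.volume_Ioo, mul_comm]
            congr 2; ring
        _ ≤ _ := by
            apply setLIntegral_mono' measurableSet_Ioo
            intro t ht
            exact lintegral_mono_set (closedBall_subset_ball ht.1)
    refine le_trans ?_ h4
    have hs0 : 0 < 1 - s := by linarith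
    rw [← ENNReal.ofReal_mul hc.le] at h3
    by_cases hItop : I = ⊤
    · rw [hItop, ENNReal.mul_top]
      · exact le_top
      · simp only [ne_eq, ENNReal.ofReal_eq_zero, not_le]
        positivity
    · have hIr : I = ENNReal.ofReal I.toReal := (ENNReal.ofReal_toReal hItop).symm
      rw [hIr, ← ENNReal.ofReal_mul (by positivity)] at h3 ⊢
      have hI0 : 0 ≤ I.toReal := ENNReal.toReal_nonneg
      have h5 : c * Real.pi ≤ 16 * Real.pi * (1 - s) * I.toReal := by
        rwa [ENNReal.ofReal_le_ofReal_iff (by positivity)] at h3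
      apply ENNReal.ofReal_le_ofReal
      have h6 : c ≤ 16 * (1 - s) * I.toReal := by
        by_contra hlt
        push Not at hlt
        have := mul_lt_mul_of_pos_right hlt hπ
        linarith
      linarith
  -- contradiction
  have hlim : Tendsto (fun n : ℕ => ∫⁻ t in Ioo (1 - (1 / ((n : ℝ) + 2)) / 3) 1, S t
      ∂(volume.restrict (Ioo (0 : ℝ) 1))) atTop (𝓝 0) := by
    apply tendsto_setLIntegral_zero hfin
    have h3 : Tendsto (fun n : ℕ => ENNReal.ofReal ((1 / ((n : ℝ) + 2)) / 3)) atTop (𝓝 0) := by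
      have h4 : Tendsto (fun n : ℕ => (1 / ((n : ℝ) + 2)) / 3) atTop (𝓝 0) := by
        have h5 : Tendsto (fun n : ℕ => (n : ℝ) + 2) atTop atTop :=
          tendsto_natCast_atTop_atTop.atTop_add tendsto_const_nhds
        have := (tendsto_const_nhds (x := (1 : ℝ))).div_atTop h5
        simpa using this.div_const 3
      simpa using ENNReal.tendsto_ofReal h4
    refine tendsto_of_tendsto_of_tendsto_of_le_of_le tendsto_const_nhds h3
      (fun n => bot_le) (fun n => ?_)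
    simp only [Function.comp_apply]
    calc (volume.restrict (Ioo (0 : ℝ) 1)) (Ioo (1 - (1 / ((n : ℝ) + 2)) / 3) 1)
        ≤ volume (Ioo (1 - (1 / ((n : ℝ) + 2)) / 3) 1) := Measure.restrict_apply_le _ _
      _ = _ := by rw [Real.volume_Ioo]; congr 1; ring
  have hge : ∀ n : ℕ, ENNReal.ofReal (c / 48) ≤ ∫⁻ t in Ioo (1 - (1 / ((n : ℝ) + 2)) / 3) 1, S t
      ∂(volume.restrict (Ioo (0 : ℝ) 1)) := by
    intro n
    have h3 : 1 / ((n : ℝ) + 2) ≤ 1 / 2 := one_div_le_one_div_of_le (by norm_num) (by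
      have : (0 : ℝ) ≤ n := by positivity
      linarith)
    have h4 : 0 < 1 / ((n : ℝ) + 2) := by positivity
    have h5 := htail (1 - 1 / ((n : ℝ) + 2)) (by linarith) (by linarith)
    have h6 : 1 - (1 - (1 - 1 / ((n : ℝ) + 2))) / 3 = 1 - (1 / ((n : ℝ) + 2)) / 3 := by ring
    rw [h6] at h5
    rw [Measure.restrict_restrict measurableSet_Ioo]
    exact h5
  have h6 := ge_of_tendsto' hlim hge
  rw [nonpos_iff_eq_zero, ENNReal.ofReal_eq_zero] at h6
  linarith

end Pool.Agent.H95.Nev
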